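import Mathlib

set_option autoImplicit false
set_option linter.unusedSectionVars false

/-!
Weighted permutation operators on `ℓ²(ι, E)`.
-/

namespace Pool.Agent.H744R2.RR

open scoped ENNReal InnerProductSpace

variable {ι : Type} {E : Type} [NormedAddCommGroup E] [InnerProductSpace ℂ E] [CompleteSpace E]

/-- `ℓ²(ι, E)` -/
abbrev L2 (ι E : Type) [NormedAddCommGroup E] : Type := lp (fun _ : ι => E) 2

theorem summable_sq (y : L2 ι E) : Summable fun i => ‖y i‖ ^ (2 : ℕ) := by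
  have := (lp.memℓp y).summable (by norm_num)
  simpa using this

theorem norm_sq_eq (y : L2 ι E) : ‖y‖ ^ (2 : ℕ) = ∑' i, ‖y i‖ ^ (2 : ℕ) := by
  have := lp.norm_rpow_eq_tsum (p := 2) (by norm_num) y
  simpa using this

theorem wperm_mem (σ : Equiv.Perm ι) (x : ι → E →L[ℂ] E) (C : ℝ) (hx : ∀ i, ‖x i‖ ≤ C)
    (y : L2 ι E) : Memℓp (fun i => x i (y (σ i))) 2 := by
  refine memℓp_gen ?_
  have h1 : Summable fun i => C ^ 2 * ‖y (σ i)‖ ^ (2 : ℕ) :=
    (((Equiv.summable_iff σ).2 (summable_sq y))).mul_left (C ^ 2)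
  refine Summable.of_nonneg_of_le (fun i => by positivity) (fun i => ?_) h1
  have h2 : ‖x i (y (σ i))‖ ≤ C * ‖y (σ i)‖ := (x i).le_of_opNorm_le (hx i) _
  have h3 : ‖x i (y (σ i))‖ ^ (2 : ℕ) ≤ (C * ‖y (σ i)‖) ^ (2 : ℕ) := by gcongr
  simpa [mul_pow] using h3

/-- Weighted permutation operator `(T y)_i = x_i (y_{σ i})`. -/
noncomputable def wperm (σ : Equiv.Perm ι) (x : ι → E →L[ℂ] E) (C : ℝ) (hC : 0 ≤ C)
    (hx : ∀ i, ‖x i‖ ≤ C) : L2 ι E →L[ℂ] L2 ι E :=
  LinearMap.mkContinuous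
    { toFun := fun y => ⟨fun i => x i (y (σ i)), wperm_mem σ x C hx y⟩
      map_add' := fun y z => by
        refine lp.ext (funext fun i => ?_)
        change x i ((y + z) (σ i)) = x i (y (σ i)) + x i (z (σ i))
        rw [lp.coeFn_add, Pi.add_apply, map_add]
      map_smul' := fun c y => by
        refine lp.ext (funext fun i => ?_)
        change x i ((c • y) (σ i)) = c • x i (y (σ i))
        rw [lp.coeFn_smul, Pi.smul_apply, map_smul] } C (fun y => by
      have hn : 0 ≤ C * ‖y‖ := by positivity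
      refine (sq_le_sq₀ (norm_nonneg _) hn).1 ?_
      rw [norm_sq_eq, mul_pow, norm_sq_eq, ← tsum_mul_left]
      have h1 : Summable fun i => C ^ 2 * ‖y (σ i)‖ ^ (2 : ℕ) :=
        (((Equiv.summable_iff σ).2 (summable_sq y))).mul_left (C ^ 2)
      have h3 : ∑' i, C ^ 2 * ‖y (σ i)‖ ^ (2 : ℕ) = ∑' i, C ^ 2 * ‖y i‖ ^ (2 : ℕ) :=
        Equiv.tsum_eq σ (fun i => C ^ 2 * ‖y i‖ ^ (2 : ℕ))
      rw [← h3]
      refine Summable.tsum_le_tsum (fun i => ?_) (summable_sq _) h1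
      have h2 : ‖x i (y (σ i))‖ ≤ C * ‖y (σ i)‖ := (x i).le_of_opNorm_le (hx i) _
      have h3 : ‖x i (y (σ i))‖ ^ (2 : ℕ) ≤ (C * ‖y (σ i)‖) ^ (2 : ℕ) := by gcongr
      simpa [mul_pow] using h3)

theorem wperm_apply (σ : Equiv.Perm ι) (x : ι → E →L[ℂ] E) (C : ℝ) (hC : 0 ≤ C)
    (hx : ∀ i, ‖x i‖ ≤ C) (y : L2 ι E) (i : ι) :
    wperm σ x C hC hx y i = x i (y (σ i)) := rfl

theorem wperm_norm_le (σ : Equiv.Perm ι) (x : ι → E →L[ℂ] E) (C : ℝ) (hC : 0 ≤ C)
    (hx : ∀ i, ‖x i‖ ≤ C) : ‖wperm σ x C hC hx‖ ≤ C :=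
  LinearMap.mkContinuous_norm_le _ hC _

theorem L2_ext {y z : L2 ι E} (h : ∀ i, y i = z i) : y = z := lp.ext (funext h)

theorem op_ext {S T : L2 ι E →L[ℂ] L2 ι E} (h : ∀ y i, S y i = T y i) : S = T :=
  ContinuousLinearMap.ext fun y => L2_ext (h y)

theorem wperm_star (σ : Equiv.Perm ι) (x : ι → E →L[ℂ] E) (C : ℝ) (hC : 0 ≤ C)
    (hx : ∀ i, ‖x i‖ ≤ C) :
    star (wperm σ x C hC hx) = wperm σ⁻¹ (fun i => star (x (σ⁻¹ i))) C hC
      (fun i => by rw [norm_star]; exact hx _) := by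
  rw [ContinuousLinearMap.star_eq_adjoint, eq_comm, ContinuousLinearMap.eq_adjoint_iff]
  intro y z
  rw [lp.inner_eq_tsum, lp.inner_eq_tsum]
  rw [← Equiv.tsum_eq σ]
  refine tsum_congr fun i => ?_
  have hs : σ⁻¹ (σ i) = i := σ.symm_apply_apply i
  rw [wperm_apply, wperm_apply, hs]
  rw [ContinuousLinearMap.star_eq_adjoint, ContinuousLinearMap.adjoint_inner_left]

/-! ### amplification -/

/-- `(x ⊗ 1)` -/
noncomputable def amp (ι : Type) (x : E →L[ℂ] E) : L2 ι E →L[ℂ] L2 ι E :=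
  wperm 1 (fun _ => x) ‖x‖ (norm_nonneg _) (fun _ => le_rfl)

@[simp] theorem amp_apply (x : E →L[ℂ] E) (y : L2 ι E) (i : ι) : amp ι x y i = x (y i) := rfl

theorem amp_norm_le (x : E →L[ℂ] E) : ‖amp ι x‖ ≤ ‖x‖ := wperm_norm_le _ _ _ _ _

theorem amp_mul (x z : E →L[ℂ] E) : amp ι (x * z) = amp ι x * amp ι z := op_ext fun _ _ => rfl

theorem amp_one : amp ι (1 : E →L[ℂ] E) = 1 := op_ext fun _ _ => rfl

theorem amp_zero : amp ι (0 : E →L[ℂ] E) = 0 := op_ext fun _ _ => rfl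

theorem amp_add (x z : E →L[ℂ] E) : amp ι (x + z) = amp ι x + amp ι z := op_ext fun _ _ => rfl

theorem amp_sub (x z : E →L[ℂ] E) : amp ι (x - z) = amp ι x - amp ι z := op_ext fun _ _ => rfl

theorem amp_smul (c : ℂ) (x : E →L[ℂ] E) : amp ι (c • x) = c • amp ι x := op_ext fun _ _ => rfl

theorem amp_star (x : E →L[ℂ] E) : star (amp ι x) = amp ι (star x) := by
  unfold amp
  rw [wperm_star]
  exact op_ext fun _ _ => rfl

/-! ### masks -/

open Classical in
/-- coordinate projection onto `S` -/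
noncomputable def mask (S : Set ι) : L2 ι E →L[ℂ] L2 ι E :=
  wperm 1 (fun i => if i ∈ S then 1 else 0) 1 zero_le_one (fun i => by
    split_ifs
    · exact ContinuousLinearMap.norm_id_le
    · simp)

open Classical in
theorem mask_apply (S : Set ι) (y : L2 ι E) (i : ι) :
    mask S y i = if i ∈ S then y i else 0 := by
  unfold mask
  rw [wperm_apply]
  split_ifs <;> rfl

theorem mask_of_mem {S : Set ι} (y : L2 ι E) {i : ι} (h : i ∈ S) : mask S y i = y i := by
  rw [mask_apply, if_pos h]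

theorem mask_of_notMem {S : Set ι} (y : L2 ι E) {i : ι} (h : i ∉ S) : mask S y i = 0 := by
  rw [mask_apply, if_neg h]

theorem mask_norm_le (S : Set ι) : ‖(mask S : L2 ι E →L[ℂ] L2 ι E)‖ ≤ 1 := wperm_norm_le _ _ _ _ _

open Classical in
theorem mask_star (S : Set ι) : star (mask S : L2 ι E →L[ℂ] L2 ι E) = mask S := by
  unfold mask
  rw [wperm_star]
  refine op_ext fun y i => ?_
  rw [wperm_apply, wperm_apply]
  change (star (if i ∈ S then (1 : E →L[ℂ] E) else 0)) (y i) = (if i ∈ S then (1 : E →L[ℂ] E) else 0) (y i)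
  by_cases h : i ∈ S
  · rw [if_pos h, star_one]
  · rw [if_neg h, star_zero]

theorem mask_mul (S T : Set ι) : (mask S : L2 ι E →L[ℂ] L2 ι E) * mask T = mask (S ∩ T) := by
  refine op_ext fun y i => ?_
  change mask S (mask T y) i = _
  by_cases h1 : i ∈ S
  · rw [mask_of_mem _ h1]
    by_cases h2 : i ∈ T
    · rw [mask_of_mem _ h2, mask_of_mem _ (show i ∈ S ∩ T from ⟨h1, h2⟩)]
    · rw [mask_of_notMem _ h2, mask_of_notMem _ (show i ∉ S ∩ T from fun h => h2 h.2)]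
  · rw [mask_of_notMem _ h1, mask_of_notMem _ (show i ∉ S ∩ T from fun h => h1 h.1)]

theorem mask_univ : (mask Set.univ : L2 ι E →L[ℂ] L2 ι E) = 1 :=
  op_ext fun y i => mask_of_mem y (Set.mem_univ i)

theorem mask_empty : (mask ∅ : L2 ι E →L[ℂ] L2 ι E) = 0 :=
  op_ext fun y i => mask_of_notMem y (Set.notMem_empty i)

theorem mask_compl (S : Set ι) : (1 : L2 ι E →L[ℂ] L2 ι E) - mask S = mask Sᶜ := by
  refine op_ext fun y i => ?_
  change (y - mask S y) i = _
  rw [lp.coeFn_sub, Pi.sub_apply]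
  by_cases h : i ∈ S
  · rw [mask_of_mem _ h, mask_of_notMem _ (show i ∉ Sᶜ from fun h' => h' h), sub_self]
  · rw [mask_of_notMem _ h, mask_of_mem _ (show i ∈ Sᶜ from h), sub_zero]

theorem mask_union {S T : Set ι} (h : Disjoint S T) :
    (mask (S ∪ T) : L2 ι E →L[ℂ] L2 ι E) = mask S + mask T := by
  refine op_ext fun y i => ?_
  change _ = (mask S y + mask T y) i
  rw [lp.coeFn_add, Pi.add_apply]
  by_cases h1 : i ∈ S
  · have h2 : i ∉ T := Set.disjoint_left.1 h h1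
    rw [mask_of_mem _ (show i ∈ S ∪ T from Or.inl h1), mask_of_mem _ h1, mask_of_notMem _ h2,
      add_zero]
  · by_cases h2 : i ∈ T
    · rw [mask_of_mem _ (show i ∈ S ∪ T from Or.inr h2), mask_of_notMem _ h1, mask_of_mem _ h2,
        zero_add]
    · rw [mask_of_notMem _ (show i ∉ S ∪ T from fun h' => h'.elim h1 h2), mask_of_notMem _ h1,
        mask_of_notMem _ h2, zero_add]

theorem amp_mask_comm (x : E →L[ℂ] E) (S : Set ι) : amp ι x * mask S = mask S * amp ι x := by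
  refine op_ext fun y i => ?_
  change x (mask S y i) = mask S (amp ι x y) i
  by_cases h : i ∈ S
  · rw [mask_of_mem _ h, mask_of_mem _ h]; rfl
  · rw [mask_of_notMem _ h, mask_of_notMem _ h, map_zero]

/-! ### permutations -/

/-- `(T y)_i = y_{σ i}` -/
noncomputable def pm (E : Type) [NormedAddCommGroup E] [InnerProductSpace ℂ E] [CompleteSpace E]
    (σ : Equiv.Perm ι) : L2 ι E →L[ℂ] L2 ι E :=
  wperm σ (fun _ => 1) 1 zero_le_one (fun _ => ContinuousLinearMap.norm_id_le)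

@[simp] theorem pm_apply (σ : Equiv.Perm ι) (y : L2 ι E) (i : ι) : pm E σ y i = y (σ i) := rfl

theorem pm_norm_le (σ : Equiv.Perm ι) : ‖pm E σ‖ ≤ 1 := wperm_norm_le _ _ _ _ _

theorem pm_star (σ : Equiv.Perm ι) : star (pm E σ) = pm E σ⁻¹ := by
  unfold pm
  rw [wperm_star]
  refine op_ext fun y i => ?_
  rw [wperm_apply, wperm_apply]
  simp

theorem pm_mul (σ τ : Equiv.Perm ι) : pm E σ * pm E τ = pm E (τ * σ) := op_ext fun _ _ => rfl

theorem pm_one : pm E (1 : Equiv.Perm ι) = 1 := op_ext fun _ _ => rfl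

theorem amp_pm_comm (x : E →L[ℂ] E) (σ : Equiv.Perm ι) : amp ι x * pm E σ = pm E σ * amp ι x :=
  op_ext fun _ _ => rfl

theorem pm_mask (σ : Equiv.Perm ι) (S : Set ι) :
    pm E σ * mask S = mask (σ ⁻¹' S) * pm E σ := by
  refine op_ext fun y i => ?_
  change mask S y (σ i) = mask (σ ⁻¹' S) (pm E σ y) i
  by_cases h : σ i ∈ S
  · rw [mask_of_mem _ h, mask_of_mem _ (show i ∈ σ ⁻¹' S from h)]; rfl
  · rw [mask_of_notMem _ h, mask_of_notMem _ (show i ∉ σ ⁻¹' S from h)]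

/-! ### compactness -/

theorem single_eval (i : ι) [DecidableEq ι] (x : E →L[ℂ] E) :
    amp ι x * mask {i} = (lp.singleContinuousLinearMap ℂ (fun _ : ι => E) 2 i) ∘L (x ∘L
      (lp.evalCLM ℂ (fun _ : ι => E) 2 i)) := by
  refine op_ext fun y j => ?_
  change x (mask {i} y j) = lp.single (E := fun _ : ι => E) 2 i (x (y i)) j
  by_cases h : j = i
  · subst h
    rw [mask_of_mem _ (Set.mem_singleton j), lp.single_apply_self]
  · rw [mask_of_notMem _ (show j ∉ ({i} : Set ι) from h), lp.single_apply_ne _ _ _ h, map_zero]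

theorem compact_single {i : ι} {x : E →L[ℂ] E} (hx : IsCompactOperator x) :
    IsCompactOperator (amp ι x * mask {i} : L2 ι E →L[ℂ] L2 ι E) := by
  classical
  rw [single_eval]
  have h1 : IsCompactOperator (x ∘L (lp.evalCLM ℂ (fun _ : ι => E) 2 i)) := hx.comp_clm _
  exact h1.clm_comp (lp.singleContinuousLinearMap ℂ (fun _ : ι => E) 2 i)

end Pool.Agent.H744R2.RR
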