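import Mathlib
import Pool.Agent.H744R2.RR.LpOps

set_option autoImplicit false
set_option linter.unusedSectionVars false

/-!
`Kp x`: both `x` and `star x` are compact operators (Schauder's theorem makes the second condition
redundant, but we do not need this).
-/

namespace Pool.Agent.H744R2.RR

open scoped ENNReal InnerProductSpace Topology

section K
variable {E : Type} [NormedAddCommGroup E] [InnerProductSpace ℂ E] [CompleteSpace E]

/-- `x` and `star x` compact -/
def Kp (x : E →L[ℂ] E) : Prop := IsCompactOperator x ∧ IsCompactOperator (star x : E →L[ℂ] E)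

theorem Kp.star {x : E →L[ℂ] E} (h : Kp x) : Kp (star x) := ⟨h.2, by rw [star_star]; exact h.1⟩

theorem Kp.add {x y : E →L[ℂ] E} (h : Kp x) (h' : Kp y) : Kp (x + y) := by
  refine ⟨?_, ?_⟩
  · exact h.1.add h'.1
  · rw [star_add]; exact h.2.add h'.2

theorem Kp.neg {x : E →L[ℂ] E} (h : Kp x) : Kp (-x) := by
  refine ⟨?_, ?_⟩
  · exact h.1.neg
  · rw [star_neg]; exact h.2.neg

theorem Kp.sub {x y : E →L[ℂ] E} (h : Kp x) (h' : Kp y) : Kp (x - y) := by
  rw [sub_eq_add_neg]; exact h.add h'.neg

theorem Kp.zero : Kp (0 : E →L[ℂ] E) := by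
  refine ⟨isCompactOperator_zero, ?_⟩
  rw [star_zero]; exact isCompactOperator_zero

theorem Kp.mul_left {x : E →L[ℂ] E} (h : Kp x) (y : E →L[ℂ] E) : Kp (y * x) := by
  refine ⟨?_, ?_⟩
  · exact h.1.clm_comp y
  · rw [star_mul]; exact h.2.comp_clm (Star.star y)

theorem Kp.mul_right {x : E →L[ℂ] E} (h : Kp x) (y : E →L[ℂ] E) : Kp (x * y) := by
  refine ⟨?_, ?_⟩
  · exact h.1.comp_clm y
  · rw [star_mul]; exact h.2.clm_comp (Star.star y)

theorem Kp.smul {x : E →L[ℂ] E} (h : Kp x) (c : ℂ) : Kp (c • x) := by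
  have : c • x = (c • (1 : E →L[ℂ] E)) * x := by rw [smul_mul_assoc, one_mul]
  rw [this]; exact h.mul_left _

theorem isClosed_Kp : IsClosed {x : E →L[ℂ] E | Kp x} := by
  have h1 : IsClosed {x : E →L[ℂ] E | IsCompactOperator x} := isClosed_setOfPred_isCompactOperator
  have h2 : IsClosed {x : E →L[ℂ] E | IsCompactOperator (Star.star x : E →L[ℂ] E)} :=
    h1.preimage continuous_star
  exact h1.inter h2

theorem Kp.of_approx {x : E →L[ℂ] E} (h : ∀ ε : ℝ, 0 < ε → ∃ y, Kp y ∧ ‖x - y‖ ≤ ε) : Kp x := by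
  have : x ∈ closure {x : E →L[ℂ] E | Kp x} := by
    rw [Metric.mem_closure_iff]
    intro ε hε
    obtain ⟨y, hy, hxy⟩ := h (ε / 2) (by linarith)
    exact ⟨y, hy, by rw [dist_eq_norm]; linarith⟩
  rwa [isClosed_Kp.closure_eq] at this

theorem Kp.sum {κ : Type} (s : Finset κ) (f : κ → E →L[ℂ] E) (h : ∀ i ∈ s, Kp (f i)) :
    Kp (∑ i ∈ s, f i) := by
  classical
  induction s using Finset.induction_on with
  | empty => rw [Finset.sum_empty]; exact Kp.zero
  | insert a s ha ih =>
    rw [Finset.sum_insert ha]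
    exact (h a (Finset.mem_insert_self _ _)).add (ih fun i hi => h i (Finset.mem_insert_of_mem hi))

theorem Kp.of_finiteDimensional [FiniteDimensional ℂ E] (x : E →L[ℂ] E) : Kp x := by
  have : ProperSpace E := FiniteDimensional.proper ℂ E
  exact ⟨isCompactOperator_of_locallyCompactSpace_dom _,
    isCompactOperator_of_locallyCompactSpace_dom _⟩

/-- Fredholm alternative: an injective operator of the form `W + K` with `W` invertible and `K`
compact is surjective. -/
theorem surjective_of_injective {U : E →L[ℂ] E} {W : (E →L[ℂ] E)ˣ} {K : E →L[ℂ] E}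
    (hK : IsCompactOperator K) (hU : U = W + K) (hinj : Function.Injective U) :
    Function.Surjective U := by
  set W' : E →L[ℂ] E := (↑W⁻¹ : E →L[ℂ] E) with hW'
  have hK' : IsCompactOperator (W' * K : E →L[ℂ] E) := hK.clm_comp W'
  have h1 : W' * U = W' * K - (-1 : ℂ) • 1 := by
    rw [hU, mul_add, hW', Units.inv_mul]
    module
  have hW'inj : Function.Injective W' := by
    intro x y hxy
    have : (W : E →L[ℂ] E) (W' x) = (W : E →L[ℂ] E) (W' y) := by rw [hxy]
    have e : ∀ z, (W : E →L[ℂ] E) (W' z) = z := fun z => by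
      change ((W : E →L[ℂ] E) * W') z = z
      rw [hW', Units.mul_inv]; rfl
    rwa [e, e] at this
  rcases IsCompactOperator.hasEigenvalue_or_mem_resolventSet hK' (μ := -1) (by norm_num) with h | h
  · exfalso
    obtain ⟨v, hv⟩ := h.exists_hasEigenvector
    have hv1 := hv.apply_eq_smul
    have hv2 := hv.2
    have hv3 : (W' * U) v = 0 := by
      rw [h1]
      have : (W' * K) v = (-1 : ℂ) • v := hv1
      change (W' * K) v - (-1 : ℂ) • v = 0
      rw [this, sub_self]
    have hv4 : W' (U v) = 0 := hv3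
    have hv5 : U v = 0 := hW'inj (by rw [hv4, map_zero])
    exact hv2 (hinj (by rw [hv5, map_zero]))
  · have h2 : IsUnit (W' * U) := by
      rw [h1]
      rw [spectrum.mem_resolventSet_iff] at h
      have h3 := h.neg
      rw [neg_sub, Algebra.algebraMap_eq_smul_one] at h3
      exact h3
    have h3 : IsUnit U := by
      have : U = (W : E →L[ℂ] E) * (W' * U) := by
        rw [← mul_assoc, hW', Units.mul_inv, one_mul]
      rw [this]
      exact (Units.isUnit W).mul h2
    obtain ⟨u, hu⟩ := h3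
    intro y
    refine ⟨(↑u⁻¹ : E →L[ℂ] E) y, ?_⟩
    rw [← hu]
    change ((u : E →L[ℂ] E) * (↑u⁻¹ : E →L[ℂ] E)) y = y
    rw [Units.mul_inv]; rfl

end K

end Pool.Agent.H744R2.RR
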