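import Mathlib
import Pool.Agent.H744R2.RR.Kp

set_option autoImplicit false
set_option linter.unusedSectionVars false

/-!
The ideal `J = A ⊗ K`, its multiplier algebra `M` and the ideal `J₀`, on `ℓ²(ℕ, E)`, for `A = B(E)`.
-/

namespace Pool.Agent.H744R2.RR

open scoped ENNReal InnerProductSpace Topology
open Filter

variable {E : Type} [NormedAddCommGroup E] [InnerProductSpace ℂ E] [CompleteSpace E]

theorem nstar (x : L2 ℕ E →L[ℂ] L2 ℕ E) : ‖star x‖ = ‖x‖ := norm_star x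

/-- first `n` coordinates -/
noncomputable def q (E : Type) [NormedAddCommGroup E] [InnerProductSpace ℂ E] [CompleteSpace E]
    (n : ℕ) : L2 ℕ E →L[ℂ] L2 ℕ E := mask {i | i < n}

/-- complementary projection -/
noncomputable def rr (E : Type) [NormedAddCommGroup E] [InnerProductSpace ℂ E] [CompleteSpace E]
    (n : ℕ) : L2 ℕ E →L[ℂ] L2 ℕ E := mask {i | i < n}ᶜ

theorem one_sub_q (n : ℕ) : 1 - q E n = rr E n := mask_compl _

theorem q_add_rr (n : ℕ) : q E n + rr E n = 1 := by rw [← one_sub_q]; abel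

theorem q_star (n : ℕ) : star (q E n) = q E n := mask_star _
theorem rr_star (n : ℕ) : star (rr E n) = rr E n := mask_star _
theorem q_norm (n : ℕ) : ‖q E n‖ ≤ 1 := mask_norm_le _
theorem rr_norm (n : ℕ) : ‖rr E n‖ ≤ 1 := mask_norm_le _

theorem q_mul_q (n : ℕ) : q E n * q E n = q E n := by unfold q; rw [mask_mul, Set.inter_self]

theorem rr_mul_rr {n m : ℕ} (h : n ≤ m) : rr E m * rr E n = rr E m := by
  unfold rr
  rw [mask_mul]
  congr 1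
  ext i
  simp only [Set.mem_inter_iff, Set.mem_compl_iff, Set.mem_ofPred_eq, not_lt]
  omega

theorem rr_mul_q {n m : ℕ} (h : m ≤ n) : rr E n * q E m = 0 := by
  unfold rr q
  rw [mask_mul, ← mask_empty]
  congr 1
  ext i
  simp only [Set.mem_inter_iff, Set.mem_compl_iff, Set.mem_ofPred_eq, not_lt,
    Set.mem_empty_iff_false, iff_false]
  omega

/-- `r_N S → 0` -/
def Z (S : L2 ℕ E →L[ℂ] L2 ℕ E) : Prop := Tendsto (fun N => rr E N * S) atTop (𝓝 0)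

theorem Z.zero : Z (0 : L2 ℕ E →L[ℂ] L2 ℕ E) := by
  unfold Z; simp only [mul_zero]; exact tendsto_const_nhds

theorem Z.add {S T : L2 ℕ E →L[ℂ] L2 ℕ E} (h : Z S) (h' : Z T) : Z (S + T) := by
  unfold Z at *
  simpa only [mul_add, add_zero] using Tendsto.add h h'

theorem Z.neg {S : L2 ℕ E →L[ℂ] L2 ℕ E} (h : Z S) : Z (-S) := by
  unfold Z at *
  simpa only [mul_neg, neg_zero] using Tendsto.neg h

theorem Z.smul {S : L2 ℕ E →L[ℂ] L2 ℕ E} (h : Z S) (c : ℂ) : Z (c • S) := by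
  unfold Z at *
  simpa only [mul_smul_comm, smul_zero] using Tendsto.const_smul h c

theorem Z.mul_right {S : L2 ℕ E →L[ℂ] L2 ℕ E} (h : Z S) (X : L2 ℕ E →L[ℂ] L2 ℕ E) :
    Z (S * X) := by
  unfold Z at *
  have := Tendsto.mul_const X h
  simpa only [zero_mul, mul_assoc] using this

theorem Z.of_q (n : ℕ) : Z (q E n) := by
  unfold Z
  refine tendsto_const_nhds.congr' ?_
  filter_upwards [eventually_ge_atTop n] with N hN
  exact (rr_mul_q hN).symm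

theorem Z.of_approx {S : L2 ℕ E →L[ℂ] L2 ℕ E}
    (h : ∀ ε : ℝ, 0 < ε → ∃ S', Z S' ∧ ‖S - S'‖ ≤ ε) : Z S := by
  unfold Z
  rw [Metric.tendsto_atTop]
  intro ε hε
  obtain ⟨S', hS', hd⟩ := h (ε / 2) (by linarith)
  obtain ⟨N, hN⟩ := (Metric.tendsto_atTop.1 hS') (ε / 2) (by linarith)
  refine ⟨N, fun n hn => ?_⟩
  have h1 := hN n hn
  rw [dist_zero_right] at h1 ⊢
  have h2 : rr E n * S = rr E n * (S - S') + rr E n * S' := by rw [mul_sub]; abel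
  rw [h2]
  have h3 : ‖rr E n * (S - S')‖ ≤ ε / 2 := by
    calc ‖rr E n * (S - S')‖ ≤ ‖rr E n‖ * ‖S - S'‖ := norm_mul_le _ _
      _ ≤ 1 * (ε / 2) := by gcongr; exact rr_norm _
      _ = ε / 2 := one_mul _
  linarith [norm_add_le (rr E n * (S - S')) (rr E n * S')]

theorem Z.mul_left {S T : L2 ℕ E →L[ℂ] L2 ℕ E} (h : Z S) (hT : ∀ m, Z (T * q E m)) :
    Z (T * S) := by
  refine Z.of_approx fun ε hε => ?_
  have h1 : Tendsto (fun N => T * (rr E N * S)) atTop (𝓝 (T * 0)) := Tendsto.const_mul T h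
  rw [mul_zero] at h1
  obtain ⟨N, hN⟩ := (Metric.tendsto_atTop.1 h1) ε hε
  refine ⟨T * RR.q E N * S, (hT N).mul_right S, ?_⟩
  have h2 := hN N le_rfl
  rw [dist_zero_right] at h2
  have h3 : T * S - T * RR.q E N * S = T * (rr E N * S) := by
    rw [← one_sub_q]; noncomm_ring
  rw [h3]; exact h2.le

/-- membership in `J` -/
def Jp (S : L2 ℕ E →L[ℂ] L2 ℕ E) : Prop := Z S ∧ Z (star S)

/-- membership in `M` -/
def Mp (T : L2 ℕ E →L[ℂ] L2 ℕ E) : Prop := ∀ m, Z (T * q E m) ∧ Z (star T * q E m)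

theorem Mp.star {T : L2 ℕ E →L[ℂ] L2 ℕ E} (h : Mp T) : Mp (star T) :=
  fun m => ⟨(h m).2, by rw [star_star]; exact (h m).1⟩

theorem Mp.add {S T : L2 ℕ E →L[ℂ] L2 ℕ E} (h : Mp S) (h' : Mp T) : Mp (S + T) := fun m =>
  ⟨by rw [add_mul]; exact (h m).1.add (h' m).1,
    by rw [star_add, add_mul]; exact (h m).2.add (h' m).2⟩

theorem Mp.neg {S : L2 ℕ E →L[ℂ] L2 ℕ E} (h : Mp S) : Mp (-S) := fun m =>
  ⟨by rw [neg_mul]; exact (h m).1.neg, by rw [star_neg, neg_mul]; exact (h m).2.neg⟩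

theorem Mp.sub {S T : L2 ℕ E →L[ℂ] L2 ℕ E} (h : Mp S) (h' : Mp T) : Mp (S - T) := by
  rw [sub_eq_add_neg]; exact h.add h'.neg

theorem Mp.smul {S : L2 ℕ E →L[ℂ] L2 ℕ E} (h : Mp S) (c : ℂ) : Mp (c • S) := fun m =>
  ⟨by rw [smul_mul_assoc]; exact (h m).1.smul c,
    by rw [star_smul, smul_mul_assoc]; exact (h m).2.smul _⟩

theorem Mp.mul {S T : L2 ℕ E →L[ℂ] L2 ℕ E} (h : Mp S) (h' : Mp T) : Mp (S * T) := fun m =>
  ⟨by rw [mul_assoc]; exact (h' m).1.mul_left fun k => (h k).1,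
    by rw [star_mul, mul_assoc]; exact (h m).2.mul_left fun k => (h' k).2⟩

theorem Mp.one : Mp (1 : L2 ℕ E →L[ℂ] L2 ℕ E) := fun m =>
  ⟨by rw [one_mul]; exact Z.of_q m, by rw [star_one, one_mul]; exact Z.of_q m⟩

theorem Mp.zero : Mp (0 : L2 ℕ E →L[ℂ] L2 ℕ E) := fun m =>
  ⟨by rw [zero_mul]; exact Z.zero, by rw [star_zero, zero_mul]; exact Z.zero⟩

theorem Mp.of_approx {S : L2 ℕ E →L[ℂ] L2 ℕ E}
    (h : ∀ ε : ℝ, 0 < ε → ∃ S', Mp S' ∧ ‖S - S'‖ ≤ ε) : Mp S := by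
  intro m
  refine ⟨Z.of_approx fun ε hε => ?_, Z.of_approx fun ε hε => ?_⟩
  · obtain ⟨S', hS', hd⟩ := h ε hε
    refine ⟨S' * RR.q E m, (hS' m).1, ?_⟩
    rw [← sub_mul]
    calc ‖(S - S') * RR.q E m‖ ≤ ‖S - S'‖ * ‖RR.q E m‖ := norm_mul_le _ _
      _ ≤ ε * 1 := by gcongr; exact q_norm _
      _ = ε := mul_one _
  · obtain ⟨S', hS', hd⟩ := h ε hε
    refine ⟨Star.star S' * RR.q E m, (hS' m).2, ?_⟩
    rw [← sub_mul, ← star_sub]
    calc ‖Star.star (S - S') * RR.q E m‖ ≤ ‖Star.star (S - S')‖ * ‖RR.q E m‖ := norm_mul_le _ _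
      _ ≤ ε * 1 := by gcongr; exacts [by rw [nstar]; exact hd, q_norm _]
      _ = ε := mul_one _

theorem Jp.star {S : L2 ℕ E →L[ℂ] L2 ℕ E} (h : Jp S) : Jp (star S) :=
  ⟨h.2, by rw [star_star]; exact h.1⟩

theorem Jp.add {S T : L2 ℕ E →L[ℂ] L2 ℕ E} (h : Jp S) (h' : Jp T) : Jp (S + T) :=
  ⟨h.1.add h'.1, by rw [star_add]; exact h.2.add h'.2⟩

theorem Jp.smul {S : L2 ℕ E →L[ℂ] L2 ℕ E} (h : Jp S) (c : ℂ) : Jp (c • S) :=
  ⟨h.1.smul c, by rw [star_smul]; exact h.2.smul _⟩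

theorem Jp.zero : Jp (0 : L2 ℕ E →L[ℂ] L2 ℕ E) := ⟨Z.zero, by rw [star_zero]; exact Z.zero⟩

theorem Jp.of_q (n : ℕ) : Jp (q E n) := ⟨Z.of_q n, by rw [q_star]; exact Z.of_q n⟩

theorem Jp.mp {S : L2 ℕ E →L[ℂ] L2 ℕ E} (h : Jp S) : Mp S := fun _ =>
  ⟨h.1.mul_right _, h.2.mul_right _⟩

theorem Jp.mul_left {S T : L2 ℕ E →L[ℂ] L2 ℕ E} (h : Jp S) (hT : Mp T) : Jp (T * S) :=
  ⟨h.1.mul_left fun k => (hT k).1, by rw [star_mul]; exact h.2.mul_right _⟩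

theorem Jp.mul_right {S T : L2 ℕ E →L[ℂ] L2 ℕ E} (h : Jp S) (hT : Mp T) : Jp (S * T) := by
  have := (h.star.mul_left hT.star).star
  rwa [star_mul, star_star, star_star] at this

/-- the multiplier algebra, as a star subalgebra -/
def MS (E : Type) [NormedAddCommGroup E] [InnerProductSpace ℂ E] [CompleteSpace E] :
    StarSubalgebra ℂ (L2 ℕ E →L[ℂ] L2 ℕ E) where
  carrier := {T | Mp T}
  mul_mem' := fun h h' => Mp.mul h h'
  one_mem' := Mp.one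
  add_mem' := fun h h' => Mp.add h h'
  zero_mem' := Mp.zero
  algebraMap_mem' := fun c => by
    rw [Algebra.algebraMap_eq_smul_one]; exact Mp.one.smul c
  star_mem' := fun h => Mp.star h

theorem mem_MS {T : L2 ℕ E →L[ℂ] L2 ℕ E} : T ∈ MS E ↔ Mp T := Iff.rfl

theorem isClosed_MS : IsClosed (MS E : Set (L2 ℕ E →L[ℂ] L2 ℕ E)) := by
  rw [← closure_subset_iff_isClosed]
  intro T hT
  refine Mp.of_approx fun ε hε => ?_
  obtain ⟨S, hS, hd⟩ := Metric.mem_closure_iff.1 hT ε hε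
  exact ⟨S, hS, by rw [← dist_eq_norm]; exact hd.le⟩

theorem Mp.cfc {T : L2 ℕ E →L[ℂ] L2 ℕ E} (hT : Mp T) (f : ℂ → ℂ) : Mp (cfc f T) := by
  have h1 : _root_.cfc f T ∈ StarAlgebra.elemental ℂ T := cfc_mem_elemental f T
  have h2 : StarAlgebra.elemental ℂ T ≤ MS E :=
    StarAlgebra.elemental.le_of_mem isClosed_MS (mem_MS.2 hT)
  exact h2 h1

/-- membership in `J₀` -/
def J0p (x : L2 ℕ E →L[ℂ] L2 ℕ E) : Prop := Mp x ∧ ∀ n, Kp (x * q E n) ∧ Kp (q E n * x)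

theorem J0p.star {x : L2 ℕ E →L[ℂ] L2 ℕ E} (h : J0p x) : J0p (star x) := by
  refine ⟨h.1.star, fun n => ⟨?_, ?_⟩⟩
  · have := (h.2 n).2.star
    rwa [star_mul, q_star] at this
  · have := (h.2 n).1.star
    rwa [star_mul, q_star] at this

theorem J0p.add {x y : L2 ℕ E →L[ℂ] L2 ℕ E} (h : J0p x) (h' : J0p y) : J0p (x + y) := by
  refine ⟨h.1.add h'.1, fun n => ⟨?_, ?_⟩⟩
  · rw [add_mul]; exact (h.2 n).1.add (h'.2 n).1
  · rw [mul_add]; exact (h.2 n).2.add (h'.2 n).2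

theorem J0p.smul {x : L2 ℕ E →L[ℂ] L2 ℕ E} (h : J0p x) (c : ℂ) : J0p (c • x) := by
  refine ⟨h.1.smul c, fun n => ⟨?_, ?_⟩⟩
  · rw [smul_mul_assoc]; exact (h.2 n).1.smul c
  · rw [mul_smul_comm]; exact (h.2 n).2.smul c

theorem J0p.neg {x : L2 ℕ E →L[ℂ] L2 ℕ E} (h : J0p x) : J0p (-x) := by
  have := h.smul (-1)
  rwa [neg_one_smul] at this

theorem J0p.sub {x y : L2 ℕ E →L[ℂ] L2 ℕ E} (h : J0p x) (h' : J0p y) : J0p (x - y) := by
  rw [sub_eq_add_neg]; exact h.add h'.neg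

theorem J0p.zero : J0p (0 : L2 ℕ E →L[ℂ] L2 ℕ E) := by
  refine ⟨Mp.zero, fun n => ⟨?_, ?_⟩⟩
  · rw [zero_mul]; exact Kp.zero
  · rw [mul_zero]; exact Kp.zero

theorem Mp.approx_left {T : L2 ℕ E →L[ℂ] L2 ℕ E} (hT : Mp T) (n : ℕ) {ε : ℝ} (hε : 0 < ε) :
    ∃ m, ‖RR.q E n * T - RR.q E n * T * RR.q E m‖ ≤ ε := by
  have h1 := (hT n).2
  obtain ⟨N, hN⟩ := (Metric.tendsto_atTop.1 h1) ε hε
  refine ⟨N, ?_⟩
  have h2 := hN N le_rfl
  rw [dist_zero_right] at h2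
  have h3 : RR.q E n * T - RR.q E n * T * RR.q E N
      = Star.star (rr E N * (Star.star T * RR.q E n)) := by
    rw [star_mul, star_mul, rr_star, q_star, star_star, ← one_sub_q]; noncomm_ring
  rw [h3, nstar]
  exact h2.le

theorem J0p.mul_left {x T : L2 ℕ E →L[ℂ] L2 ℕ E} (h : J0p x) (hT : Mp T) : J0p (T * x) := by
  refine ⟨hT.mul h.1, fun n => ⟨?_, ?_⟩⟩
  · rw [mul_assoc]; exact (h.2 n).1.mul_left T
  · refine Kp.of_approx fun ε hε => ?_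
    have hδ : 0 < ε / (‖x‖ + 1) := by positivity
    obtain ⟨m, hm⟩ := hT.approx_left n hδ
    refine ⟨RR.q E n * T * RR.q E m * x, ?_, ?_⟩
    · rw [mul_assoc (RR.q E n * T)]; exact (h.2 m).2.mul_left _
    · have e : RR.q E n * (T * x) - RR.q E n * T * RR.q E m * x
          = (RR.q E n * T - RR.q E n * T * RR.q E m) * x := by noncomm_ring
      rw [e]
      calc ‖(RR.q E n * T - RR.q E n * T * RR.q E m) * x‖
          ≤ ‖RR.q E n * T - RR.q E n * T * RR.q E m‖ * ‖x‖ := norm_mul_le _ _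
        _ ≤ (ε / (‖x‖ + 1)) * (‖x‖ + 1) := by gcongr; linarith
        _ = ε := by field_simp

theorem J0p.mul_right {x T : L2 ℕ E →L[ℂ] L2 ℕ E} (h : J0p x) (hT : Mp T) : J0p (x * T) := by
  have := (h.star.mul_left hT.star).star
  rwa [star_mul, star_star, star_star] at this

/-- equality modulo `J₀` -/
def Eq0 (x y : L2 ℕ E →L[ℂ] L2 ℕ E) : Prop := Mp x ∧ Mp y ∧ J0p (x - y)

theorem Eq0.refl {x : L2 ℕ E →L[ℂ] L2 ℕ E} (h : Mp x) : Eq0 x x :=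
  ⟨h, h, by rw [sub_self]; exact J0p.zero⟩

theorem Eq0.symm {x y : L2 ℕ E →L[ℂ] L2 ℕ E} (h : Eq0 x y) : Eq0 y x :=
  ⟨h.2.1, h.1, by rw [← neg_sub]; exact h.2.2.neg⟩

theorem Eq0.trans {x y z : L2 ℕ E →L[ℂ] L2 ℕ E} (h : Eq0 x y) (h' : Eq0 y z) : Eq0 x z :=
  ⟨h.1, h'.2.1, by rw [← sub_add_sub_cancel x y z]; exact h.2.2.add h'.2.2⟩

theorem Eq0.add {x y x' y' : L2 ℕ E →L[ℂ] L2 ℕ E} (h : Eq0 x y) (h' : Eq0 x' y') :
    Eq0 (x + x') (y + y') :=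
  ⟨h.1.add h'.1, h.2.1.add h'.2.1, by
    have e : x + x' - (y + y') = (x - y) + (x' - y') := by abel
    rw [e]; exact h.2.2.add h'.2.2⟩

theorem Eq0.sub {x y x' y' : L2 ℕ E →L[ℂ] L2 ℕ E} (h : Eq0 x y) (h' : Eq0 x' y') :
    Eq0 (x - x') (y - y') :=
  ⟨h.1.sub h'.1, h.2.1.sub h'.2.1, by
    have e : x - x' - (y - y') = (x - y) - (x' - y') := by abel
    rw [e]; exact h.2.2.sub h'.2.2⟩

theorem Eq0.smul {x y : L2 ℕ E →L[ℂ] L2 ℕ E} (h : Eq0 x y) (c : ℂ) : Eq0 (c • x) (c • y) :=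
  ⟨h.1.smul c, h.2.1.smul c, by rw [← smul_sub]; exact h.2.2.smul c⟩

theorem Eq0.mul {x y x' y' : L2 ℕ E →L[ℂ] L2 ℕ E} (h : Eq0 x y) (h' : Eq0 x' y') :
    Eq0 (x * x') (y * y') :=
  ⟨h.1.mul h'.1, h.2.1.mul h'.2.1, by
    have e : x * x' - y * y' = (x - y) * x' + y * (x' - y') := by noncomm_ring
    rw [e]; exact (h.2.2.mul_right h'.1).add (h'.2.2.mul_left h.2.1)⟩

/-- membership in `J + J₀` -/
def Ip (x : L2 ℕ E →L[ℂ] L2 ℕ E) : Prop := ∃ j j₀, Jp j ∧ J0p j₀ ∧ x = j + j₀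

theorem Ip.zero : Ip (0 : L2 ℕ E →L[ℂ] L2 ℕ E) := ⟨0, 0, Jp.zero, J0p.zero, by rw [add_zero]⟩

theorem Ip.add {x y : L2 ℕ E →L[ℂ] L2 ℕ E} (h : Ip x) (h' : Ip y) : Ip (x + y) := by
  obtain ⟨j, j₀, h1, h2, rfl⟩ := h
  obtain ⟨k, k₀, h3, h4, rfl⟩ := h'
  exact ⟨j + k, j₀ + k₀, h1.add h3, h2.add h4, by abel⟩

theorem Ip.mul_left {x T : L2 ℕ E →L[ℂ] L2 ℕ E} (h : Ip x) (hT : Mp T) : Ip (T * x) := by
  obtain ⟨j, j₀, h1, h2, rfl⟩ := h
  exact ⟨T * j, T * j₀, h1.mul_left hT, h2.mul_left hT, by rw [mul_add]⟩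

theorem Ip.mul_right {x T : L2 ℕ E →L[ℂ] L2 ℕ E} (h : Ip x) (hT : Mp T) : Ip (x * T) := by
  obtain ⟨j, j₀, h1, h2, rfl⟩ := h
  exact ⟨j * T, j₀ * T, h1.mul_right hT, h2.mul_right hT, by rw [add_mul]⟩

/-- if `p = p²` and `p` is within `1/2` of the ideal `J + J₀`, then it is in its closure -/
theorem idem_mem {p a : L2 ℕ E →L[ℂ] L2 ℕ E} (hp : Mp p) (hpp : p * p = p) (hp1 : ‖p‖ ≤ 1)
    (ha : Ip a) (hMa : Mp a) (h : ‖p - a‖ ≤ 1 / 2) (n : ℕ) :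
    ∃ y : L2 ℕ E →L[ℂ] L2 ℕ E, Mp y ∧ ‖y‖ ≤ (1 / 2) ^ n ∧ Ip (p - y) := by
  induction n with
  | zero => exact ⟨p, hp, by simpa using hp1, by rw [sub_self]; exact Ip.zero⟩
  | succ n ih =>
    obtain ⟨y, h1, h2, h3⟩ := ih
    refine ⟨(p - a) * y, (hp.sub hMa).mul h1, ?_, ?_⟩
    · calc ‖(p - a) * y‖ ≤ ‖p - a‖ * ‖y‖ := norm_mul_le _ _
        _ ≤ (1 / 2) * (1 / 2) ^ n := by gcongr
        _ = (1 / 2) ^ (n + 1) := by rw [pow_succ]; ring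
    · have e : p - (p - a) * y = a * p + (p - a) * (p - y) := by
        have : a * p + (p - a) * (p - y) = p * p - (p - a) * y := by noncomm_ring
        rw [this, hpp]
      rw [e]
      exact (ha.mul_right hp).add (h3.mul_left (hp.sub hMa))

end Pool.Agent.H744R2.RR
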