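import Mathlib
import Pool.Agent.H744R2.RR.Mult

set_option autoImplicit false
set_option linter.unusedSectionVars false

/-!
Identification of the sets in the frozen statement; band operators are multipliers.
-/

namespace Pool.Agent.H744R2.RR

open scoped ENNReal InnerProductSpace Topology
open Filter

variable {E : Type} [NormedAddCommGroup E] [InnerProductSpace ℂ E] [CompleteSpace E]

/-- the full von Neumann algebra -/
noncomputable def fullVN (E : Type) [NormedAddCommGroup E] [InnerProductSpace ℂ E] [CompleteSpace E] :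
    VonNeumannAlgebra E where
  toStarSubalgebra := ⊤
  centralizer_centralizer' := by
    ext x
    constructor
    · intro _; exact Set.mem_univ x
    · intro _
      rw [Set.mem_centralizer_iff]
      intro y hy
      rw [Set.mem_centralizer_iff] at hy
      exact (hy x (Set.mem_univ x)).symm

theorem commutant_comm {b : E →L[ℂ] E} (hb : b ∈ (fullVN E).commutant) (x : E →L[ℂ] E) :
    x * b = b * x := by
  rw [VonNeumannAlgebra.mem_commutant_iff] at hb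
  exact hb x (Set.mem_univ x)

theorem first_cond (S : L2 ℕ E →L[ℂ] L2 ℕ E) (i j : ℕ) (b : E →L[ℂ] E)
    (hb : b ∈ (fullVN E).commutant) (x : E) :
    (S (lp.single 2 j (b x) : lp (fun _ : ℕ => E) 2)) i
      = b ((S (lp.single 2 j x : lp (fun _ : ℕ => E) 2)) i) := by
  set Sij : E →L[ℂ] E := (lp.evalCLM ℂ (fun _ : ℕ => E) 2 i) ∘L (S ∘L
    (lp.singleContinuousLinearMap ℂ (fun _ : ℕ => E) 2 j)) with hS
  have h := commutant_comm hb Sij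
  have h2 := congrArg (fun T : E →L[ℂ] E => T x) h
  exact h2

theorem rr_norm_sq (N : ℕ) (y : L2 ℕ E) : ‖rr E N y‖ ^ 2 = ∑' i : ℕ, ‖y (i + N)‖ ^ 2 := by
  rw [norm_sq_eq]
  rw [← Summable.sum_add_tsum_nat_add N (summable_sq (rr E N y))]
  have h1 : ∑ i ∈ Finset.range N, ‖rr E N y i‖ ^ 2 = 0 := by
    refine Finset.sum_eq_zero fun i hi => ?_
    unfold rr
    rw [mask_of_notMem _ (show i ∉ {i | i < N}ᶜ from fun h => h (Finset.mem_range.1 hi)),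
      norm_zero]
    norm_num
  rw [h1, zero_add]
  refine tsum_congr fun i => ?_
  unfold rr
  rw [mask_of_mem _ (show i + N ∈ {i | i < N}ᶜ from by
    rw [Set.mem_compl_iff, Set.mem_ofPred_eq]; omega)]

theorem Z_iff (S : L2 ℕ E →L[ℂ] L2 ℕ E) : Z S ↔ ∀ ε : ℝ, 0 < ε → ∃ N : ℕ, ∀ n, N ≤ n →
    ∀ x : L2 ℕ E, ‖x‖ ≤ 1 → ‖rr E n (S x)‖ ^ 2 ≤ ε := by
  unfold Z
  rw [Metric.tendsto_atTop]
  constructor
  · intro h ε hε
    obtain ⟨N, hN⟩ := h (√ε) (Real.sqrt_pos.2 hε)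
    refine ⟨N, fun n hn x hx => ?_⟩
    have h1 := hN n hn
    rw [dist_zero_right] at h1
    have h2 : ‖rr E n (S x)‖ ≤ √ε := by
      calc ‖rr E n (S x)‖ = ‖(rr E n * S) x‖ := rfl
        _ ≤ ‖rr E n * S‖ * ‖x‖ := (rr E n * S).le_opNorm x
        _ ≤ √ε * 1 := by gcongr
        _ = √ε := mul_one _
    calc ‖rr E n (S x)‖ ^ 2 ≤ (√ε) ^ 2 := by gcongr
      _ = ε := Real.sq_sqrt hε.le
  · intro h ε hε
    obtain ⟨N, hN⟩ := h ((ε / 2) ^ 2) (by positivity)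
    refine ⟨N, fun n hn => ?_⟩
    rw [dist_zero_right]
    have h1 : ‖rr E n * S‖ ≤ ε / 2 := by
      refine ContinuousLinearMap.opNorm_le_of_unit_norm (by positivity) fun x hx => ?_
      have h2 := hN n hn x hx.le
      exact (sq_le_sq₀ (norm_nonneg _) (by positivity)).1 h2
    linarith

theorem Z_iff' (S : L2 ℕ E →L[ℂ] L2 ℕ E) : Z S ↔ ∀ ε : ℝ, 0 < ε → ∃ N : ℕ,
    ∀ x : L2 ℕ E, ‖x‖ ≤ 1 → ‖rr E N (S x)‖ ^ 2 ≤ ε := by
  rw [Z_iff]
  constructor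
  · intro h ε hε
    obtain ⟨N, hN⟩ := h ε hε
    exact ⟨N, hN N le_rfl⟩
  · intro h ε hε
    obtain ⟨N, hN⟩ := h ε hε
    refine ⟨N, fun n hn x hx => ?_⟩
    refine le_trans ?_ (hN x hx)
    have h1 : rr E n (S x) = rr E n (rr E N (S x)) := by
      have := congrArg (fun T : L2 ℕ E →L[ℂ] L2 ℕ E => T (S x)) (rr_mul_rr (E := E) hn)
      exact this.symm
    rw [h1]
    have h2 : ‖rr E n (rr E N (S x))‖ ≤ ‖rr E N (S x)‖ := by
      calc ‖rr E n (rr E N (S x))‖ ≤ ‖rr E n‖ * ‖rr E N (S x)‖ := (rr E n).le_opNorm _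
        _ ≤ 1 * ‖rr E N (S x)‖ := by gcongr; exact rr_norm _
        _ = _ := one_mul _
    gcongr

/-- the second condition in the definition of `J` -/
theorem Jp_iff (S : L2 ℕ E →L[ℂ] L2 ℕ E) : Jp S ↔
    ∀ ε : ℝ, 0 < ε → ∃ N : ℕ, ∀ x : L2 ℕ E, ‖x‖ ≤ 1 →
      (∑' i : ℕ, ‖(S x) (i + N)‖ ^ 2) ≤ ε ∧ (∑' i : ℕ, ‖((star S) x) (i + N)‖ ^ 2) ≤ ε := by
  unfold Jp
  constructor
  · rintro ⟨h1, h2⟩ ε hε
    obtain ⟨N1, hN1⟩ := (Z_iff S).1 h1 ε hε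
    obtain ⟨N2, hN2⟩ := (Z_iff (star S)).1 h2 ε hε
    refine ⟨max N1 N2, fun x hx => ⟨?_, ?_⟩⟩
    · rw [← rr_norm_sq]; exact hN1 _ (le_max_left _ _) x hx
    · rw [← rr_norm_sq]; exact hN2 _ (le_max_right _ _) x hx
  · intro h
    refine ⟨(Z_iff' S).2 fun ε hε => ?_, (Z_iff' (star S)).2 fun ε hε => ?_⟩
    · obtain ⟨N, hN⟩ := h ε hε
      exact ⟨N, fun x hx => by rw [rr_norm_sq]; exact (hN x hx).1⟩
    · obtain ⟨N, hN⟩ := h ε hε
      exact ⟨N, fun x hx => by rw [rr_norm_sq]; exact (hN x hx).2⟩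

theorem J_eq : {S : lp (fun _ : ℕ => E) 2 →L[ℂ] lp (fun _ : ℕ => E) 2 |
      (∀ i j : ℕ, ∀ b ∈ (fullVN E).commutant, ∀ x : E,
        (S (lp.single 2 j (b x) : lp (fun _ : ℕ => E) 2)) i
          = b ((S (lp.single 2 j x : lp (fun _ : ℕ => E) 2)) i)) ∧
      ∀ ε : ℝ, 0 < ε → ∃ N : ℕ, ∀ x : lp (fun _ : ℕ => E) 2, ‖x‖ ≤ 1 →
        (∑' i : ℕ, ‖(S x) (i + N)‖ ^ 2) ≤ ε ∧
        (∑' i : ℕ, ‖((star S) x) (i + N)‖ ^ 2) ≤ ε} = {S | Jp S} := by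
  ext S
  constructor
  · rintro ⟨-, h⟩
    exact (Jp_iff S).2 h
  · intro h
    exact ⟨fun i j b hb x => first_cond S i j b hb x, (Jp_iff S).1 h⟩

theorem M_eq : {T : L2 ℕ E →L[ℂ] L2 ℕ E | ∀ S ∈ {S : L2 ℕ E →L[ℂ] L2 ℕ E | Jp S},
    T * S ∈ {S : L2 ℕ E →L[ℂ] L2 ℕ E | Jp S} ∧ S * T ∈ {S : L2 ℕ E →L[ℂ] L2 ℕ E | Jp S}}
    = {T | Mp T} := by
  ext T
  constructor
  · intro h m
    obtain ⟨h1, h2⟩ := h (q E m) (Jp.of_q m)
    refine ⟨h1.1, ?_⟩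
    have h3 := h2.2
    rwa [star_mul, q_star] at h3
  · intro h S hS
    exact ⟨Jp.mul_left hS h, Jp.mul_right hS h⟩

/-! ### band operators -/

theorem Z_wperm (σ : Equiv.Perm ℕ) (x : ℕ → E →L[ℂ] E) (C : ℝ) (hC : 0 ≤ C)
    (hx : ∀ i, ‖x i‖ ≤ C) (d : ℕ) (hσ : ∀ i, i ≤ σ i + d) (m : ℕ) :
    Z (wperm σ x C hC hx * q E m) := by
  unfold Z
  refine tendsto_const_nhds.congr' ?_
  filter_upwards [eventually_ge_atTop (m + d)] with N hN
  refine op_ext fun y i => ?_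
  change (0 : L2 ℕ E) i = rr E N (wperm σ x C hC hx (q E m y)) i
  unfold rr
  by_cases h : i < N
  · rw [mask_of_notMem _ (show i ∉ {i | i < N}ᶜ from fun h' => h' h)]
    rfl
  · rw [mask_of_mem _ (show i ∈ {i | i < N}ᶜ from h), wperm_apply]
    unfold q
    have h1 : σ i ∉ {i | i < m} := by
      rw [Set.mem_ofPred_eq]
      have := hσ i
      omega
    rw [mask_of_notMem _ h1, map_zero]
    rfl

theorem Mp_wperm (σ : Equiv.Perm ℕ) (x : ℕ → E →L[ℂ] E) (C : ℝ) (hC : 0 ≤ C)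
    (hx : ∀ i, ‖x i‖ ≤ C) (d : ℕ) (hσ : ∀ i, i ≤ σ i + d) (hσ' : ∀ i, σ i ≤ i + d) :
    Mp (wperm σ x C hC hx) := by
  intro m
  refine ⟨Z_wperm σ x C hC hx d hσ m, ?_⟩
  rw [wperm_star]
  refine Z_wperm σ⁻¹ _ C hC _ d (fun i => ?_) m
  have := hσ' (σ⁻¹ i)
  have e : σ (σ⁻¹ i) = i := σ.apply_symm_apply i
  rwa [e] at this

theorem q_eq_sum (n : ℕ) : q E n = ∑ j ∈ Finset.range n, mask {j} := by
  induction n with
  | zero =>
    rw [Finset.sum_range_zero, ← mask_empty]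
    unfold q
    congr 1
    ext i
    simp
  | succ n ih =>
    rw [Finset.sum_range_succ, ← ih]
    unfold q
    rw [← mask_union]
    · congr 1
      ext i
      simp only [Set.mem_ofPred_eq, Set.mem_union, Set.mem_singleton_iff]
      omega
    · rw [Set.disjoint_left]
      intro i hi hi'
      rw [Set.mem_singleton_iff] at hi'
      rw [Set.mem_ofPred_eq] at hi
      omega

theorem Kp_single {x : E →L[ℂ] E} (hx : Kp x) (i : ℕ) :
    Kp (amp ℕ x * mask {i} : L2 ℕ E →L[ℂ] L2 ℕ E) := by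
  refine ⟨compact_single hx.1, ?_⟩
  rw [star_mul, amp_star, mask_star, ← amp_mask_comm]
  exact compact_single hx.2

theorem wperm_mask (σ : Equiv.Perm ℕ) (x : ℕ → E →L[ℂ] E) (C : ℝ) (hC : 0 ≤ C)
    (hx : ∀ i, ‖x i‖ ≤ C) (j : ℕ) :
    wperm σ x C hC hx * mask {j} = amp ℕ (x (σ⁻¹ j)) * mask {σ⁻¹ j} * pm E σ := by
  refine op_ext fun y i => ?_
  change x i (mask {j} y (σ i)) = x (σ⁻¹ j) (mask {σ⁻¹ j} (pm E σ y) i)
  by_cases h : i = σ⁻¹ j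
  · have h1 : σ i = j := by rw [h]; exact σ.apply_symm_apply j
    rw [mask_of_mem _ (show σ i ∈ ({j} : Set ℕ) from h1),
      mask_of_mem _ (show i ∈ ({σ⁻¹ j} : Set ℕ) from h), ← h]
    rfl
  · have h1 : σ i ≠ j := by
      rintro rfl
      exact h (σ.symm_apply_apply i).symm
    rw [mask_of_notMem _ (show σ i ∉ ({j} : Set ℕ) from h1),
      mask_of_notMem _ (show i ∉ ({σ⁻¹ j} : Set ℕ) from h), map_zero, map_zero]

theorem mask_wperm (σ : Equiv.Perm ℕ) (x : ℕ → E →L[ℂ] E) (C : ℝ) (hC : 0 ≤ C)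
    (hx : ∀ i, ‖x i‖ ≤ C) (j : ℕ) :
    mask {j} * wperm σ x C hC hx = amp ℕ (x j) * mask {j} * pm E σ := by
  refine op_ext fun y i => ?_
  change mask {j} (wperm σ x C hC hx y) i = x j (mask {j} (pm E σ y) i)
  by_cases h : i = j
  · rw [mask_of_mem _ (show i ∈ ({j} : Set ℕ) from h),
      mask_of_mem _ (show i ∈ ({j} : Set ℕ) from h), wperm_apply, h]
    rfl
  · rw [mask_of_notMem _ (show i ∉ ({j} : Set ℕ) from h),
      mask_of_notMem _ (show i ∉ ({j} : Set ℕ) from h), map_zero]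

theorem J0p_wperm (σ : Equiv.Perm ℕ) (x : ℕ → E →L[ℂ] E) (C : ℝ) (hC : 0 ≤ C)
    (hx : ∀ i, ‖x i‖ ≤ C) (d : ℕ) (hσ : ∀ i, i ≤ σ i + d) (hσ' : ∀ i, σ i ≤ i + d)
    (hK : ∀ i, Kp (x i)) : J0p (wperm σ x C hC hx) := by
  refine ⟨Mp_wperm σ x C hC hx d hσ hσ', fun n => ⟨?_, ?_⟩⟩
  · rw [q_eq_sum, Finset.mul_sum]
    refine Kp.sum _ _ fun j _ => ?_
    rw [wperm_mask]
    exact (Kp_single (hK _) _).mul_right _
  · rw [q_eq_sum, Finset.sum_mul]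
    refine Kp.sum _ _ fun j _ => ?_
    rw [mask_wperm]
    exact (Kp_single (hK _) _).mul_right _

theorem Mp_amp (x : E →L[ℂ] E) : Mp (amp ℕ x) :=
  Mp_wperm 1 _ _ _ _ 0 (fun _ => le_rfl) (fun _ => le_rfl)

theorem J0p_amp {x : E →L[ℂ] E} (h : Kp x) : J0p (amp ℕ x) :=
  J0p_wperm 1 _ _ _ _ 0 (fun _ => le_rfl) (fun _ => le_rfl) (fun _ => h)

theorem Mp_mask (S : Set ℕ) : Mp (mask S : L2 ℕ E →L[ℂ] L2 ℕ E) :=
  Mp_wperm 1 _ _ _ _ 0 (fun _ => le_rfl) (fun _ => le_rfl)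

end Pool.Agent.H744R2.RR
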