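import Mathlib

set_option autoImplicit false
set_option linter.unusedSectionVars false

/-!
Auxiliary continuous functions on the circle.
-/

namespace Pool.Agent.H744R2.RR

open scoped Topology

/-- real part -/
noncomputable def X (z : Circle) : ℝ := (z : ℂ).re
/-- imaginary part -/
noncomputable def Y (z : Circle) : ℝ := (z : ℂ).im

theorem X_cont : Continuous X := Complex.continuous_re.comp continuous_subtype_val
theorem Y_cont : Continuous Y := Complex.continuous_im.comp continuous_subtype_val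

theorem XY (z : Circle) : X z ^ 2 + Y z ^ 2 = 1 := by
  have h := Circle.normSq_coe z
  rw [Complex.normSq_apply] at h
  unfold X Y
  nlinarith [h]

theorem X_le (z : Circle) : X z ≤ 1 := by nlinarith [XY z, sq_nonneg (Y z)]
theorem X_ge (z : Circle) : -1 ≤ X z := by nlinarith [XY z, sq_nonneg (Y z)]
theorem Y_le (z : Circle) : Y z ≤ 1 := by nlinarith [XY z, sq_nonneg (X z)]
theorem Y_ge (z : Circle) : -1 ≤ Y z := by nlinarith [XY z, sq_nonneg (X z)]

/-- `m = 1 - 2 max(-x,0)` -/
noncomputable def mfun (z : Circle) : ℝ := 1 - 2 * max (-X z) 0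

theorem mfun_cont : Continuous mfun :=
  continuous_const.sub (continuous_const.mul (X_cont.neg.max continuous_const))

theorem mfun_le (z : Circle) : mfun z ≤ 1 := by
  unfold mfun; linarith [le_max_right (-X z) 0]

theorem mfun_ge (z : Circle) : -1 ≤ mfun z := by
  unfold mfun
  have : max (-X z) 0 ≤ 1 := max_le (by linarith [X_ge z]) zero_le_one
  linarith

theorem Y_zero {z : Circle} (h : 0 = Y z) : X z = 1 ∨ X z = -1 := by
  have h1 := XY z
  rw [← h] at h1
  have h2 : (X z - 1) * (X z + 1) = 0 := by nlinarith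
  rcases mul_eq_zero.1 h2 with h3 | h3
  · left; linarith
  · right; linarith

theorem mfun_of_Y_zero {z : Circle} (h : 0 = Y z) : mfun z = 1 ∨ mfun z = -1 := by
  unfold mfun
  rcases Y_zero h with h3 | h3
  · left; rw [h3, max_eq_right (by norm_num)]; norm_num
  · right; rw [h3, max_eq_left (by norm_num)]; norm_num

/-- positive part -/
noncomputable def ufun (z : Circle) : ℝ := max (mfun z) 0
/-- negative part -/
noncomputable def vfun (z : Circle) : ℝ := max (-mfun z) 0

theorem ufun_cont : Continuous ufun := mfun_cont.max continuous_const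
theorem vfun_cont : Continuous vfun := mfun_cont.neg.max continuous_const

theorem ufun_nonneg (z : Circle) : 0 ≤ ufun z := le_max_right _ _
theorem vfun_nonneg (z : Circle) : 0 ≤ vfun z := le_max_right _ _
theorem ufun_le (z : Circle) : ufun z ≤ 1 := max_le (mfun_le z) zero_le_one
theorem vfun_le (z : Circle) : vfun z ≤ 1 := max_le (by linarith [mfun_ge z]) zero_le_one

theorem uv (z : Circle) : ufun z * vfun z = 0 := by
  unfold ufun vfun
  rcases le_total 0 (mfun z) with h | h
  · rw [max_eq_right (a := -mfun z) (by linarith), mul_zero]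
  · rw [max_eq_right (a := mfun z) h, zero_mul]

theorem abs_m (z : Circle) : |mfun z| = ufun z + vfun z := by
  unfold ufun vfun
  rcases le_total 0 (mfun z) with h | h
  · rw [max_eq_right (a := -mfun z) (by linarith), max_eq_left h, abs_of_nonneg h, add_zero]
  · rw [max_eq_right (a := mfun z) h, max_eq_left (a := -mfun z) (by linarith), abs_of_nonpos h,
      zero_add]

/-- `c` -/
noncomputable def cR (z : Circle) : ℝ := if 0 ≤ Y z then 1 - |mfun z| else 0
/-- `a` -/
noncomputable def aR (z : Circle) : ℝ := 1 - cR z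
/-- `d1` -/
noncomputable def d1R (z : Circle) : ℝ := if 0 ≤ Y z then √(ufun z * (1 - ufun z)) else 0
/-- `d2` -/
noncomputable def d2R (z : Circle) : ℝ := if 0 ≤ Y z then √(vfun z * (1 - vfun z)) else 0
/-- `b` on the left half -/
noncomputable def bL (z : Circle) : ℝ := if 0 ≤ Y z then max (1 - 2 * |X z|) 0 else 0
/-- `b` -/
noncomputable def bR (z : Circle) : ℝ := if 0 ≤ X z then (1 + Y z) / 2 else bL z

theorem cR_cont : Continuous cR := by
  refine Continuous.if_le (continuous_const.sub mfun_cont.abs) continuous_const continuous_const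
    Y_cont (fun z hz => ?_)
  rcases mfun_of_Y_zero hz with h | h <;> rw [h] <;> norm_num

theorem aR_cont : Continuous aR := continuous_const.sub cR_cont

theorem d1R_cont : Continuous d1R := by
  refine Continuous.if_le (ufun_cont.mul (continuous_const.sub ufun_cont)).sqrt continuous_const
    continuous_const Y_cont (fun z hz => ?_)
  unfold ufun
  rcases mfun_of_Y_zero hz with h | h <;> rw [h] <;> norm_num

theorem d2R_cont : Continuous d2R := by
  refine Continuous.if_le (vfun_cont.mul (continuous_const.sub vfun_cont)).sqrt continuous_const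
    continuous_const Y_cont (fun z hz => ?_)
  unfold vfun
  rcases mfun_of_Y_zero hz with h | h <;> rw [h] <;> norm_num

theorem bL_cont : Continuous bL := by
  refine Continuous.if_le
    ((continuous_const.sub (continuous_const.mul X_cont.abs)).max continuous_const)
    continuous_const continuous_const Y_cont (fun z hz => ?_)
  rcases Y_zero hz with h | h <;> rw [h] <;> norm_num

theorem bR_cont : Continuous bR := by
  refine Continuous.if_le ((continuous_const.add Y_cont).div_const 2) bL_cont continuous_const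
    X_cont (fun z hz => ?_)
  have h1 := XY z
  rw [← hz] at h1
  have h2 : (Y z - 1) * (Y z + 1) = 0 := by nlinarith
  unfold bL
  rw [← hz]
  rcases mul_eq_zero.1 h2 with h3 | h3
  · have h4 : Y z = 1 := by linarith
    rw [h4]; norm_num
  · have h4 : Y z = -1 := by linarith
    rw [h4]; norm_num

theorem m_right {z : Circle} (h : 0 ≤ X z) : mfun z = 1 := by
  unfold mfun; rw [max_eq_right (by linarith)]; norm_num

theorem m_left {z : Circle} (h : X z ≤ 0) : mfun z = 1 + 2 * X z := by
  unfold mfun; rw [max_eq_left (by linarith)]; ring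

theorem d1R_right {z : Circle} (h : 0 ≤ X z) : d1R z = 0 := by
  unfold d1R ufun; rw [m_right h]; norm_num

theorem d1R_low {z : Circle} (h : Y z < 0) : d1R z = 0 := by
  unfold d1R; rw [if_neg (by linarith)]

theorem d2R_low {z : Circle} (h : Y z < 0) : d2R z = 0 := by
  unfold d2R; rw [if_neg (by linarith)]

theorem cR_low {z : Circle} (h : Y z < 0) : cR z = 0 := by
  unfold cR; rw [if_neg (by linarith)]

theorem d1R_sq_up {z : Circle} (h : 0 ≤ Y z) : d1R z ^ 2 = ufun z * (1 - ufun z) := by
  unfold d1R; rw [if_pos h, Real.sq_sqrt]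
  exact mul_nonneg (ufun_nonneg z) (by linarith [ufun_le z])

theorem d2R_sq_up {z : Circle} (h : 0 ≤ Y z) : d2R z ^ 2 = vfun z * (1 - vfun z) := by
  unfold d2R; rw [if_pos h, Real.sq_sqrt]
  exact mul_nonneg (vfun_nonneg z) (by linarith [vfun_le z])

theorem cR_up {z : Circle} (h : 0 ≤ Y z) : cR z = 1 - (ufun z + vfun z) := by
  unfold cR; rw [if_pos h, abs_m]

theorem bR_left_up {z : Circle} (h : X z < 0) (h' : 0 ≤ Y z) : bR z = ufun z := by
  unfold bR bL ufun
  rw [if_neg (by linarith), if_pos h', m_left h.le, abs_of_neg h]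
  congr 1; ring

theorem bR_left_low {z : Circle} (h : X z < 0) (h' : Y z < 0) : bR z = 0 := by
  unfold bR bL
  rw [if_neg (by linarith), if_neg (by linarith)]

theorem bR_right {z : Circle} (h : 0 ≤ X z) : bR z = (1 + Y z) / 2 := by
  unfold bR; rw [if_pos h]

theorem rel_d1d2 (z : Circle) : d1R z * d2R z = 0 := by
  by_cases h : 0 ≤ Y z
  · have h1 : (d1R z * d2R z) ^ 2 = 0 := by
      rw [mul_pow, d1R_sq_up h, d2R_sq_up h]
      have := uv z
      linear_combination (1 - ufun z) * (1 - vfun z) * this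
    exact pow_eq_zero_iff (two_ne_zero) |>.1 h1
  · rw [d1R_low (by linarith), zero_mul]

theorem rel_ab (z : Circle) : aR z * d1R z = bR z * d1R z := by
  by_cases hx : 0 ≤ X z
  · rw [d1R_right hx, mul_zero, mul_zero]
  · have hx' : X z < 0 := by linarith
    by_cases h : 0 ≤ Y z
    · have h1 : (aR z - bR z) * d1R z = 0 := by
        have h2 : aR z - bR z = vfun z := by
          unfold aR; rw [cR_up h, bR_left_up hx' h]; ring
        rw [h2]
        have h3 : (vfun z * d1R z) ^ 2 = 0 := by
          rw [mul_pow, d1R_sq_up h]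
          linear_combination vfun z * (1 - ufun z) * uv z
        exact pow_eq_zero_iff (two_ne_zero) |>.1 h3
      linarith
    · rw [d1R_low (by linarith), mul_zero, mul_zero]

theorem rel_c (z : Circle) : cR z ^ 2 + d1R z ^ 2 + d2R z ^ 2 = cR z := by
  by_cases h : 0 ≤ Y z
  · rw [d1R_sq_up h, d2R_sq_up h, cR_up h]
    linear_combination 2 * uv z
  · rw [d1R_low (by linarith), d2R_low (by linarith), cR_low (by linarith)]
    norm_num

theorem rel_a (z : Circle) : aR z ^ 2 + d1R z ^ 2 + d2R z ^ 2 = aR z := by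
  have := rel_c z
  unfold aR
  linear_combination this

theorem rel_ac (z : Circle) : aR z + cR z = 1 := by unfold aR; ring

/-- `κ` -/
noncomputable def kR (z : Circle) : ℝ := bR z ^ 2 + d1R z ^ 2 - bR z

theorem kR_cont : Continuous kR := ((bR_cont.pow 2).add (d1R_cont.pow 2)).sub bR_cont

theorem kR_right {z : Circle} (h : 0 ≤ X z) : kR z = - X z ^ 2 / 4 := by
  unfold kR
  rw [d1R_right h, bR_right h]
  linear_combination (1/4) * XY z

theorem kR_left {z : Circle} (h : X z < 0) : kR z = 0 := by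
  unfold kR
  by_cases h' : 0 ≤ Y z
  · rw [bR_left_up h h', d1R_sq_up h']; ring
  · rw [bR_left_low h (by linarith), d1R_low (by linarith)]; ring

theorem rel_kd1 (z : Circle) : kR z * d1R z = 0 := by
  by_cases h : 0 ≤ X z
  · rw [d1R_right h, mul_zero]
  · rw [kR_left (by linarith), zero_mul]

/-- coercion of real continuous functions -/
noncomputable def toC (g : Circle → ℝ) (hg : Continuous g) : C(Circle, ℂ) :=
  ⟨fun z => ((g z : ℝ) : ℂ), Complex.continuous_ofReal.comp hg⟩

@[simp] theorem toC_apply (g : Circle → ℝ) (hg : Continuous g) (z : Circle) :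
    toC g hg z = ((g z : ℝ) : ℂ) := rfl

theorem toC_star (g : Circle → ℝ) (hg : Continuous g) : star (toC g hg) = toC g hg := by
  ext z
  rw [ContinuousMap.star_apply, toC_apply]
  exact Complex.conj_ofReal _

/-- complex versions -/
noncomputable def aC : C(Circle, ℂ) := toC aR aR_cont
noncomputable def bC : C(Circle, ℂ) := toC bR bR_cont
noncomputable def cC : C(Circle, ℂ) := toC cR cR_cont
noncomputable def d1C : C(Circle, ℂ) := toC d1R d1R_cont
noncomputable def d2C : C(Circle, ℂ) := toC d2R d2R_cont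
noncomputable def kC : C(Circle, ℂ) := toC kR kR_cont

theorem C_d1d2 : d1C * d2C = 0 := by
  ext z
  change ((d1R z : ℝ) : ℂ) * ((d2R z : ℝ) : ℂ) = 0
  exact_mod_cast rel_d1d2 z

theorem C_ab : aC * d1C = bC * d1C := by
  ext z
  change ((aR z : ℝ) : ℂ) * ((d1R z : ℝ) : ℂ) = ((bR z : ℝ) : ℂ) * ((d1R z : ℝ) : ℂ)
  exact_mod_cast rel_ab z

theorem C_c : cC ^ 2 + d1C ^ 2 + d2C ^ 2 = cC := by
  ext z
  change ((cR z : ℝ) : ℂ) ^ 2 + ((d1R z : ℝ) : ℂ) ^ 2 + ((d2R z : ℝ) : ℂ) ^ 2 = ((cR z : ℝ) : ℂ)
  exact_mod_cast rel_c z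

theorem C_a : aC ^ 2 + d1C ^ 2 + d2C ^ 2 = aC := by
  ext z
  change ((aR z : ℝ) : ℂ) ^ 2 + ((d1R z : ℝ) : ℂ) ^ 2 + ((d2R z : ℝ) : ℂ) ^ 2 = ((aR z : ℝ) : ℂ)
  exact_mod_cast rel_a z

theorem C_ac : aC + cC = 1 := by
  ext z
  change ((aR z : ℝ) : ℂ) + ((cR z : ℝ) : ℂ) = 1
  exact_mod_cast rel_ac z

theorem C_k : bC ^ 2 + d1C ^ 2 = bC + kC := by
  ext z
  change ((bR z : ℝ) : ℂ) ^ 2 + ((d1R z : ℝ) : ℂ) ^ 2 = ((bR z : ℝ) : ℂ) + ((kR z : ℝ) : ℂ)
  unfold kR
  push_cast
  ring

theorem C_kd1 : kC * d1C = 0 := by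
  ext z
  change ((kR z : ℝ) : ℂ) * ((d1R z : ℝ) : ℂ) = 0
  exact_mod_cast rel_kd1 z

/-- the coordinate function -/
noncomputable def zc : C(Circle, ℂ) := ⟨fun z => (z : ℂ), continuous_subtype_val⟩

/-- `f = 1 + 8 κ (1 + i (2 b - 1))` -/
noncomputable def fC : C(Circle, ℂ) :=
  1 + (8 : ℂ) • (kC * (1 + Complex.I • ((2 : ℂ) • bC - 1)))

theorem fC_apply (z : Circle) :
    fC z = 1 + 8 * ((kR z : ℂ) * (1 + Complex.I * (2 * (bR z : ℂ) - 1))) := rfl

/-- `r = - f z̄` -/
noncomputable def rC : C(Circle, ℂ) := -(fC * star zc)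

theorem f_eq : fC = -zc * rC := by
  ext z
  change fC z = -(z : ℂ) * (-(fC z * (starRingEnd ℂ) (z : ℂ)))
  have h : (z : ℂ) * (starRingEnd ℂ) (z : ℂ) = 1 := by
    rw [Complex.mul_conj, Circle.normSq_coe]; norm_num
  linear_combination -(fC z) * h

theorem rC_slit (z : Circle) : rC z ∈ Complex.slitPlane := by
  have e : rC z = -(fC z * (starRingEnd ℂ) (z : ℂ)) := rfl
  have hz : (z : ℂ) = ⟨X z, Y z⟩ := rfl
  rw [Complex.mem_slitPlane_iff]
  by_cases h : 0 ≤ X z
  · have hf : fC z = ⟨1 - 2 * X z ^ 2, -(2 * X z ^ 2 * Y z)⟩ := by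
      rw [fC_apply, kR_right h, bR_right h]
      apply Complex.ext
      · simp [pow_two]; ring
      · simp [pow_two]; ring
    have hre : (rC z).re = -((1 - 2 * X z ^ 2) * X z - 2 * X z ^ 2 * Y z * Y z) := by
      rw [e, hf, hz]; simp
    have him : (rC z).im = Y z * (1 - 2 * X z ^ 2 + 2 * X z ^ 3) := by
      rw [e, hf, hz]; simp; ring
    by_cases hy : Y z = 0
    · left
      have hx : X z = 1 := by
        rcases Y_zero hy.symm with h1 | h1
        · exact h1
        · linarith
      rw [hre, hx, hy]; norm_num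
    · right
      rw [him]
      refine mul_ne_zero hy ?_
      have h1 : 0 < 1 - 2 * X z ^ 2 + 2 * X z ^ 3 := by
        have := X_le z
        nlinarith [mul_nonneg h (sq_nonneg (X z - 2/3)), sq_nonneg (X z - 2/3), sq_nonneg (X z)]
      exact h1.ne'
  · left
    have hf : fC z = 1 := by
      rw [fC_apply, kR_left (by linarith)]; simp
    rw [e, hf, hz]
    simp
    linarith

/-- `f = -z · (r₁)ⁿ` with `r₁` close to `1` -/
theorem exists_root : ∃ (r₁ : C(Circle, ℂ)) (n : ℕ), ‖r₁ - 1‖ < 1 ∧ fC = -zc * r₁ ^ n := by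
  set L : C(Circle, ℂ) := ⟨fun z => Complex.log (rC z),
    rC.continuous.clog (fun z => rC_slit z)⟩ with hL
  obtain ⟨n, hn⟩ := exists_nat_gt (3 * ‖L‖)
  have hn0 : 0 < (n : ℝ) := lt_of_le_of_lt (by positivity) hn
  have hn0' : n ≠ 0 := by
    rintro rfl; simp at hn0
  set r₁ : C(Circle, ℂ) := ⟨fun z => Complex.exp (L z / n),
    Complex.continuous_exp.comp (L.continuous.div_const _)⟩ with hr₁
  refine ⟨r₁, n, ?_, ?_⟩
  · refine lt_of_le_of_lt ((ContinuousMap.norm_le _ (C := 2/3) (by norm_num)).2 fun z => ?_)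
      (by norm_num)
    change ‖Complex.exp (L z / n) - 1‖ ≤ 2/3
    have h1 : ‖L z / n‖ ≤ 1/3 := by
      rw [norm_div, Complex.norm_natCast, div_le_iff₀ hn0]
      have := L.norm_coe_le_norm z
      linarith
    have h2 := Complex.norm_exp_sub_one_le (x := L z / n) (by linarith)
    linarith
  · rw [f_eq]
    congr 1
    ext z
    change rC z = Complex.exp (L z / n) ^ n
    rw [← Complex.exp_nat_mul, mul_div_cancel₀ _ (by exact_mod_cast hn0')]
    change rC z = Complex.exp (Complex.log (rC z))
    rw [Complex.exp_log]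
    exact Complex.slitPlane_ne_zero (rC_slit z)

end Pool.Agent.H744R2.RR
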