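import Mathlib
import Pool.Agent.H744R2.RR.Kp
import Pool.Agent.H744R2.RR.Fun

set_option autoImplicit false
set_option linter.unusedSectionVars false

/-!
The bilateral shift, its functional calculus on `C(Circle, ℂ)`, and Toeplitz compressions.
-/

namespace Pool.Agent.H744R2.RR

open scoped ENNReal InnerProductSpace Topology

/-- `ℓ²(ℤ)` -/
abbrev Hz : Type := L2 ℤ ℂ

/-- bilateral shift: `(B y)_i = y_{i-1}` -/
noncomputable def B : Hz →L[ℂ] Hz := pm ℂ (Equiv.subRight (1 : ℤ))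

theorem B_apply (y : Hz) (i : ℤ) : B y i = y (i - 1) := rfl

theorem star_B_apply (y : Hz) (i : ℤ) : (star B) y i = y (i + 1) := by
  unfold B
  rw [pm_star, pm_apply]
  rfl

theorem star_B_mul : star B * B = 1 := by
  refine op_ext fun y i => ?_
  change (star B) (B y) i = y i
  rw [star_B_apply, B_apply, add_sub_cancel_right]

theorem B_mul_star : B * star B = 1 := by
  refine op_ext fun y i => ?_
  change B ((star B) y) i = y i
  rw [B_apply, star_B_apply, sub_add_cancel]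

theorem B_unitary : B ∈ unitary (Hz →L[ℂ] Hz) := ⟨star_B_mul, B_mul_star⟩

instance B_normal : IsStarNormal B := ⟨by rw [commute_iff_eq, star_B_mul, B_mul_star]⟩

theorem spec_B (z : ℂ) (hz : z ∈ spectrum ℂ B) : ‖z‖ = 1 := by
  have := Unitary.spectrum_subset_circle (⟨B, B_unitary⟩ : unitary (Hz →L[ℂ] Hz)) hz
  simpa using this

/-- inclusion of the spectrum in the circle -/
noncomputable def incl : C(spectrum ℂ B, Circle) :=
  ⟨fun z => ⟨z.1, mem_sphere_zero_iff_norm.2 (spec_B z.1 z.2)⟩, by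
    exact Continuous.subtype_mk continuous_subtype_val _⟩

/-- functional calculus of `B` -/
noncomputable def cf : C(spectrum ℂ B, ℂ) →⋆ₐ[ℂ] (Hz →L[ℂ] Hz) :=
  cfcHom (R := ℂ) (a := B) (p := IsStarNormal) inferInstance

/-- functional calculus of `B` on the circle -/
noncomputable def fc : C(Circle, ℂ) →⋆ₐ[ℂ] (Hz →L[ℂ] Hz) :=
  cf.comp (ContinuousMap.compStarAlgHom' ℂ ℂ incl)

theorem cf_continuous : Continuous cf := cfcHom_continuous _

theorem cf_id : cf (.restrict (spectrum ℂ B) <| .id ℂ) = B := cfcHom_id _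

theorem fc_zc : fc zc = B := by
  have : fc zc = cf (.restrict (spectrum ℂ B) <| .id ℂ) := rfl
  rw [this, cf_id]

theorem cf_norm_le (g : C(spectrum ℂ B, ℂ)) : ‖cf g‖ ≤ ‖g‖ := NonUnitalStarAlgHom.norm_apply_le cf g

theorem fc_norm_le (g : C(Circle, ℂ)) : ‖fc g‖ ≤ ‖g‖ := NonUnitalStarAlgHom.norm_apply_le fc g

/-- projection onto the nonnegative coordinates -/
noncomputable def P : Hz →L[ℂ] Hz := mask {n : ℤ | 0 ≤ n}

theorem P_star : star P = P := mask_star _

theorem P_mul : P * P = P := by unfold P; rw [mask_mul, Set.inter_self]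

theorem P_norm_le : ‖P‖ ≤ 1 := mask_norm_le _

theorem comm_B : P * B - B * P = amp ℤ (1 : ℂ →L[ℂ] ℂ) * mask {(0 : ℤ)} * B := by
  rw [amp_one, one_mul]
  refine op_ext fun y i => ?_
  change (P (B y) - B (P y)) i = mask {(0 : ℤ)} (B y) i
  rw [lp.coeFn_sub, Pi.sub_apply, B_apply]
  unfold P
  by_cases h0 : i = 0
  · subst h0
    rw [mask_of_mem _ (show (0:ℤ) ∈ {n : ℤ | 0 ≤ n} from le_refl (0:ℤ)),
      mask_of_mem _ (show (0:ℤ) ∈ {(0:ℤ)} from rfl),
      mask_of_notMem _ (show (0:ℤ) - 1 ∉ {n : ℤ | 0 ≤ n} from by simp), sub_zero]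
  · rw [mask_of_notMem (S := {(0:ℤ)}) _ (show i ∉ ({(0:ℤ)} : Set ℤ) from h0)]
    by_cases h1 : 0 ≤ i
    · have h2 : 0 ≤ i - 1 := by omega
      rw [mask_of_mem _ (show i ∈ {n : ℤ | 0 ≤ n} from h1),
        mask_of_mem _ (show i - 1 ∈ {n : ℤ | 0 ≤ n} from h2), B_apply, sub_self]
    · have h2 : ¬ 0 ≤ i - 1 := by omega
      rw [mask_of_notMem _ (show i ∉ {n : ℤ | 0 ≤ n} from h1),
        mask_of_notMem _ (show i - 1 ∉ {n : ℤ | 0 ≤ n} from h2), sub_self]

theorem Kp_mask_zero : Kp (amp ℤ (1 : ℂ →L[ℂ] ℂ) * mask {(0 : ℤ)} : Hz →L[ℂ] Hz) := by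
  refine ⟨compact_single (Kp.of_finiteDimensional _).1, ?_⟩
  rw [star_mul, amp_star, mask_star, star_one, ← amp_mask_comm]
  exact compact_single (Kp.of_finiteDimensional _).1

theorem Kp_comm_B : Kp (P * B - B * P) := by
  rw [comm_B]
  exact Kp_mask_zero.mul_right _

theorem Kp_comm_star_B : Kp (P * star B - star B * P) := by
  have h := Kp_comm_B.star.neg
  rw [star_sub, star_mul, star_mul, P_star, neg_sub] at h
  exact h

theorem Kp_comm_cf (f : C(spectrum ℂ B, ℂ)) : Kp (P * cf f - cf f * P) := by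
  induction f using ContinuousMap.induction_on_of_compact with
  | const r =>
    have h1 : cf (.const (spectrum ℂ B) r) = algebraMap ℂ _ r := by
      have h2 : (ContinuousMap.const (spectrum ℂ B) r) = algebraMap ℂ C(spectrum ℂ B, ℂ) r := rfl
      rw [h2, AlgHomClass.commutes]
    rw [h1, Algebra.commutes r P, sub_self]
    exact Kp.zero
  | id => rw [cf_id]; exact Kp_comm_B
  | star_id => rw [map_star, cf_id]; exact Kp_comm_star_B
  | add f g hf hg =>
    have h := hf.add hg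
    rw [map_add]
    have e : P * (cf f + cf g) - (cf f + cf g) * P
        = P * cf f - cf f * P + (P * cf g - cf g * P) := by noncomm_ring
    rw [e]; exact h
  | mul f g hf hg =>
    have h := (hf.mul_right (cf g)).add (hg.mul_left (cf f))
    rw [map_mul]
    have e : P * (cf f * cf g) - (cf f * cf g) * P
        = (P * cf f - cf f * P) * cf g + cf f * (P * cf g - cf g * P) := by noncomm_ring
    rw [e]; exact h
  | frequently f hf =>
    have hc : IsClosed {f : C(spectrum ℂ B, ℂ) | Kp (P * cf f - cf f * P)} := by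
      have h3 : Continuous fun f : C(spectrum ℂ B, ℂ) => P * cf f - cf f * P :=
        (continuous_const.mul cf_continuous).sub (cf_continuous.mul continuous_const)
      exact isClosed_Kp.preimage h3
    exact hc.closure_subset (mem_closure_iff_frequently.2 hf)

theorem Kp_comm_fc (g : C(Circle, ℂ)) : Kp (P * fc g - fc g * P) := Kp_comm_cf _

/-- Toeplitz operator, extended by `1` on the complement of `P` -/
noncomputable def Tp (g : C(Circle, ℂ)) : Hz →L[ℂ] Hz := 1 + P * fc (g - 1) * P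

theorem Tp_one : Tp 1 = 1 := by
  unfold Tp; rw [sub_self, map_zero, mul_zero, zero_mul, add_zero]

theorem Tp_mul (f g : C(Circle, ℂ)) : Kp (Tp (f * g) - Tp f * Tp g) := by
  have e1 : f * g - 1 = (f - 1) * (g - 1) + (f - 1) + (g - 1) := by ring
  unfold Tp
  rw [e1, map_add, map_add, map_mul]
  set F := fc (f - 1) with hF
  set G := fc (g - 1) with hG
  have e2 : 1 + P * (F * G + F + G) * P - (1 + P * F * P) * (1 + P * G * P)
      = P * F * G * P - P * F * P * P * G * P := by noncomm_ring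
  have e3 : P * F * G * P - P * F * P * P * G * P = P * F * G * P * P - P * F * P * P * G * P := by
    rw [mul_assoc (P * F * G) P P, P_mul]
  have e4 : P * F * G * P - P * F * P * P * G * P = - (P * F) * (P * G - G * P) * P := by
    have : P * F * P * P * G * P = P * F * (P * P) * G * P := by noncomm_ring
    rw [this, P_mul]
    have h5 : P * F * G * P = P * F * G * (P * P) := by rw [P_mul]
    rw [h5]; noncomm_ring
  rw [e2, e4]
  have h := Kp_comm_fc (g - 1)
  rw [← hG] at h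
  exact (h.mul_left _).mul_right _

theorem Tp_pow (g : C(Circle, ℂ)) (n : ℕ) : Kp (Tp (g ^ n) - Tp g ^ n) := by
  induction n with
  | zero => rw [pow_zero, pow_zero, Tp_one, sub_self]; exact Kp.zero
  | succ n ih =>
    have h1 := Tp_mul (g ^ n) g
    have h2 := ih.mul_right (Tp g)
    have e : Tp (g ^ (n + 1)) - Tp g ^ (n + 1)
        = (Tp (g ^ n * g) - Tp (g ^ n) * Tp g) + (Tp (g ^ n) - Tp g ^ n) * Tp g := by
      rw [pow_succ, pow_succ]; noncomm_ring
    rw [e]; exact h1.add h2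

theorem Tp_isUnit (g : C(Circle, ℂ)) (hg : ‖g - 1‖ < 1) : IsUnit (Tp g) := by
  have h1 : ‖P * fc (g - 1) * P‖ < 1 := by
    calc ‖P * fc (g - 1) * P‖ ≤ ‖P * fc (g - 1)‖ * ‖P‖ := norm_mul_le _ _
      _ ≤ ‖P * fc (g - 1)‖ * 1 := by gcongr; exact P_norm_le
      _ ≤ (‖P‖ * ‖fc (g - 1)‖) * 1 := by gcongr; exact norm_mul_le _ _
      _ ≤ (1 * ‖g - 1‖) * 1 := by gcongr; exacts [P_norm_le, fc_norm_le _]
      _ < 1 := by linarith
  have h2 : ‖-(P * fc (g - 1) * P)‖ < 1 := by rwa [norm_neg]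
  have h3 := isUnit_one_sub_of_norm_lt_one h2
  rwa [sub_neg_eq_add] at h3

/-- `Tp (-z)` as an explicit operator -/
theorem Tp_neg_z : Tp (-zc) = 1 + P * (-B - 1) * P := by
  unfold Tp
  rw [map_sub, map_neg, fc_zc, map_one]

theorem Tp_neg_z_apply_pos (y : Hz) (i : ℤ) (hi : 1 ≤ i) : Tp (-zc) y i = - y (i - 1) := by
  rw [Tp_neg_z]
  change (y + P (-(B (P y)) - P y)) i = _
  unfold P
  rw [lp.coeFn_add, Pi.add_apply, mask_of_mem _ (show i ∈ {n : ℤ | 0 ≤ n} from by
    simp only [Set.mem_ofPred_eq]; omega), lp.coeFn_sub, Pi.sub_apply, lp.coeFn_neg, Pi.neg_apply,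
    B_apply, mask_of_mem _ (show i ∈ {n : ℤ | 0 ≤ n} from by
    simp only [Set.mem_ofPred_eq]; omega), mask_of_mem _ (show i - 1 ∈ {n : ℤ | 0 ≤ n} from by
    simp only [Set.mem_ofPred_eq]; omega)]
  ring

theorem Tp_neg_z_apply_zero (y : Hz) : Tp (-zc) y 0 = 0 := by
  rw [Tp_neg_z]
  change (y + P (-(B (P y)) - P y)) 0 = _
  unfold P
  rw [lp.coeFn_add, Pi.add_apply, mask_of_mem _ (show (0:ℤ) ∈ {n : ℤ | 0 ≤ n} from le_refl (0:ℤ)),
    lp.coeFn_sub, Pi.sub_apply, lp.coeFn_neg, Pi.neg_apply,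
    B_apply, mask_of_mem _ (show (0:ℤ) ∈ {n : ℤ | 0 ≤ n} from le_refl (0:ℤ)),
    mask_of_notMem _ (show (0:ℤ) - 1 ∉ {n : ℤ | 0 ≤ n} from by simp)]
  ring

theorem Tp_neg_z_apply_neg (y : Hz) (i : ℤ) (hi : i < 0) : Tp (-zc) y i = y i := by
  rw [Tp_neg_z]
  change (y + P (-(B (P y)) - P y)) i = _
  unfold P
  rw [lp.coeFn_add, Pi.add_apply, mask_of_notMem _ (show i ∉ {n : ℤ | 0 ≤ n} from by
    simp only [Set.mem_ofPred_eq]; omega), add_zero]

theorem Tp_neg_z_injective : Function.Injective (Tp (-zc)) := by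
  intro y z hyz
  refine L2_ext fun i => ?_
  by_cases hi : i < 0
  · rw [← Tp_neg_z_apply_neg y i hi, ← Tp_neg_z_apply_neg z i hi, hyz]
  · have h1 := Tp_neg_z_apply_pos y (i + 1) (by omega)
    have h2 := Tp_neg_z_apply_pos z (i + 1) (by omega)
    rw [add_sub_cancel_right] at h1 h2
    rw [hyz, h2] at h1
    exact (neg_injective h1).symm

/-- the Toeplitz operator of `f` is, modulo compacts, `Tp (-z)` times an invertible operator -/
theorem Tp_fC : ∃ A : (Hz →L[ℂ] Hz)ˣ, Kp (Tp fC - Tp (-zc) * (A : Hz →L[ℂ] Hz)) := by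
  obtain ⟨r₁, n, hr, hf⟩ := exists_root
  obtain ⟨A₀, hA₀⟩ := Tp_isUnit r₁ hr
  refine ⟨A₀ ^ n, ?_⟩
  have h1 := Tp_mul (-zc) (r₁ ^ n)
  have h2 := (Tp_pow r₁ n).mul_left (Tp (-zc))
  rw [← hf] at h1
  have h3 := h1.add h2
  have e : Tp fC - Tp (-zc) * ((A₀ ^ n : (Hz →L[ℂ] Hz)ˣ) : Hz →L[ℂ] Hz)
      = Tp fC - Tp (-zc) * Tp (r₁ ^ n) + Tp (-zc) * (Tp (r₁ ^ n) - Tp r₁ ^ n) := by
    rw [Units.val_pow_eq_pow_val, hA₀]; noncomm_ring
  rw [e]; exact h3

end Pool.Agent.H744R2.RR
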