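import Mathlib
import Pool.Agent.H744R2.RR.Ident
import Pool.Agent.H744R2.RR.Toep

set_option autoImplicit false
set_option linter.unusedSectionVars false

/-!
The block Jacobi element.
-/

namespace Pool.Agent.H744R2.RR

open scoped ENNReal InnerProductSpace Topology
open Filter

/-- swap `2n ↔ 2n+1` -/
def s1 : ℕ → ℕ := fun i => if i % 2 = 0 then i + 1 else i - 1

theorem s1_invol : Function.Involutive s1 := by
  intro i
  unfold s1
  by_cases h : i % 2 = 0
  · rw [if_pos h, if_neg (by omega)]; omega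
  · rw [if_neg h, if_pos (by omega)]; omega

/-- fixes `0`, swaps `2n+1 ↔ 2n+2` -/
def s2 : ℕ → ℕ := fun i => if i = 0 then 0 else if i % 2 = 1 then i + 1 else i - 1

theorem s2_invol : Function.Involutive s2 := by
  intro i
  unfold s2
  by_cases h0 : i = 0
  · subst h0; rfl
  · rw [if_neg h0]
    by_cases h : i % 2 = 1
    · rw [if_pos h, if_neg (by omega), if_neg (by omega)]; omega
    · rw [if_neg h, if_neg (by omega), if_pos (by omega)]; omega

/-- as permutations -/
def r1 : Equiv.Perm ℕ := s1_invol.toPerm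
/-- as permutations -/
def r2 : Equiv.Perm ℕ := s2_invol.toPerm

theorem r1_apply (i : ℕ) : r1 i = s1 i := rfl
theorem r2_apply (i : ℕ) : r2 i = s2 i := rfl
theorem r1_inv : r1⁻¹ = r1 := rfl
theorem r2_inv : r2⁻¹ = r2 := rfl

theorem r1_disp (i : ℕ) : i ≤ r1 i + 1 ∧ r1 i ≤ i + 1 := by
  rw [r1_apply]; unfold s1
  by_cases h : i % 2 = 0
  · rw [if_pos h]; omega
  · rw [if_neg h]; omega

theorem r2_disp (i : ℕ) : i ≤ r2 i + 1 ∧ r2 i ≤ i + 1 := by
  rw [r2_apply]; unfold s2
  by_cases h0 : i = 0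
  · subst h0; simp
  · rw [if_neg h0]
    by_cases h : i % 2 = 1
    · rw [if_pos h]; omega
    · rw [if_neg h]; omega

/-- diagonal entries -/
noncomputable def DD (i : ℕ) : C(Circle, ℂ) :=
  if i = 0 then bC else if i % 2 = 1 then cC else aC

/-- second off-diagonal entries -/
noncomputable def XX (i : ℕ) : C(Circle, ℂ) := if i = 0 then 0 else d2C

/-- a common bound -/
noncomputable def CC : ℝ := ‖aC‖ + ‖bC‖ + ‖cC‖ + ‖d1C‖ + ‖d2C‖

theorem CC_nonneg : 0 ≤ CC := by unfold CC; positivity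

theorem DD_le (i : ℕ) : ‖fc (DD i)‖ ≤ CC := by
  refine (fc_norm_le _).trans ?_
  unfold DD CC
  have := norm_nonneg aC
  have := norm_nonneg bC
  have := norm_nonneg cC
  have := norm_nonneg d1C
  have := norm_nonneg d2C
  split_ifs <;> linarith

theorem XX_le (i : ℕ) : ‖fc (XX i)‖ ≤ CC := by
  refine (fc_norm_le _).trans ?_
  unfold XX CC
  have := norm_nonneg aC
  have := norm_nonneg bC
  have := norm_nonneg cC
  have := norm_nonneg d1C
  have := norm_nonneg d2C
  split_ifs
  · rw [norm_zero]; linarith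
  · linarith

theorem d1_le (_ : ℕ) : ‖fc d1C‖ ≤ CC := by
  refine (fc_norm_le _).trans ?_
  unfold CC
  have := norm_nonneg aC
  have := norm_nonneg bC
  have := norm_nonneg cC
  have := norm_nonneg d2C
  linarith

/-- the element `h̃` -/
noncomputable def ht : L2 ℕ Hz →L[ℂ] L2 ℕ Hz :=
  wperm 1 (fun i => fc (DD i)) CC CC_nonneg DD_le +
  wperm r1 (fun _ => fc d1C) CC CC_nonneg d1_le +
  wperm r2 (fun i => fc (XX i)) CC CC_nonneg XX_le

theorem ht_apply (y : L2 ℕ Hz) (i : ℕ) :
    ht y i = fc (DD i) (y i) + fc d1C (y (r1 i)) + fc (XX i) (y (r2 i)) := rfl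

theorem fc_sa {g : C(Circle, ℂ)} (hg : star g = g) : star (fc g) = fc g := by
  rw [← map_star, hg]

theorem DD_star (i : ℕ) : star (DD i) = DD i := by
  unfold DD
  split_ifs
  · exact toC_star _ _
  · exact toC_star _ _
  · exact toC_star _ _

theorem XX_star (i : ℕ) : star (XX i) = XX i := by
  unfold XX
  split_ifs
  · exact star_zero _
  · exact toC_star _ _

theorem XX_r2 (i : ℕ) : XX (r2 i) = XX i := by
  unfold XX
  by_cases h : i = 0
  · subst h; rfl
  · have h2 : r2 i ≠ 0 := by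
      rw [r2_apply]; unfold s2
      rw [if_neg h]
      by_cases h' : i % 2 = 1
      · rw [if_pos h']; omega
      · rw [if_neg h']; omega
    rw [if_neg h, if_neg h2]

theorem ht_star : star ht = ht := by
  unfold ht
  rw [star_add, star_add, wperm_star, wperm_star, wperm_star]
  refine op_ext fun y i => ?_
  change (star (fc (DD i))) (y i) + (star (fc d1C)) (y (r1⁻¹ i))
      + (star (fc (XX (r2⁻¹ i)))) (y (r2⁻¹ i)) =
    fc (DD i) (y i) + fc d1C (y (r1 i)) + fc (XX i) (y (r2 i))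
  rw [r1_inv, r2_inv, XX_r2, fc_sa (DD_star i), fc_sa (XX_star i),
    fc_sa (show star d1C = d1C from toC_star _ _)]

theorem Mp_ht : Mp ht := by
  unfold ht
  exact ((Mp_wperm 1 _ _ _ _ 0 (fun _ => le_rfl) (fun _ => le_rfl)).add
    (Mp_wperm r1 _ _ _ _ 1 (fun i => (r1_disp i).1) (fun i => (r1_disp i).2))).add
    (Mp_wperm r2 _ _ _ _ 1 (fun i => (r2_disp i).1) (fun i => (r2_disp i).2))

/-- amplified projection -/
noncomputable def pp : L2 ℕ Hz →L[ℂ] L2 ℕ Hz := amp ℕ P

theorem pp_star : star pp = pp := by unfold pp; rw [amp_star, P_star]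

theorem pp_mul : pp * pp = pp := by unfold pp; rw [← amp_mul, P_mul]

theorem Mp_pp : Mp pp := Mp_amp _

theorem comm_wperm (σ : Equiv.Perm ℕ) (x : ℕ → C(Circle, ℂ)) (C : ℝ) (hC : 0 ≤ C)
    (hx : ∀ i, ‖fc (x i)‖ ≤ C) (hσ : ∀ i, i ≤ σ i + 1) (hσ' : ∀ i, σ i ≤ i + 1) :
    J0p (pp * wperm σ (fun i => fc (x i)) C hC hx - wperm σ (fun i => fc (x i)) C hC hx * pp) := by
  have hb : ∀ i, ‖P * fc (x i) - fc (x i) * P‖ ≤ C + C := by
    intro i
    have h1 : ‖P * fc (x i)‖ ≤ C := by
      calc ‖P * fc (x i)‖ ≤ ‖P‖ * ‖fc (x i)‖ := norm_mul_le _ _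
        _ ≤ 1 * C := by gcongr; exacts [P_norm_le, hx i]
        _ = C := one_mul _
    have h2 : ‖fc (x i) * P‖ ≤ C := by
      calc ‖fc (x i) * P‖ ≤ ‖fc (x i)‖ * ‖P‖ := norm_mul_le _ _
        _ ≤ C * 1 := by gcongr; exacts [hx i, P_norm_le]
        _ = C := mul_one _
    linarith [norm_sub_le (P * fc (x i)) (fc (x i) * P)]
  have e : pp * wperm σ (fun i => fc (x i)) C hC hx - wperm σ (fun i => fc (x i)) C hC hx * pp
      = wperm σ (fun i => P * fc (x i) - fc (x i) * P) (C + C) (by linarith) hb := by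
    refine op_ext fun y i => ?_
    rfl
  rw [e]
  exact J0p_wperm σ _ _ _ _ 1 hσ hσ' (fun i => Kp_comm_fc _)

theorem comm_pp_ht : J0p (pp * ht - ht * pp) := by
  have h1 := comm_wperm 1 DD CC CC_nonneg DD_le (fun i => Nat.le_succ i) (fun i => Nat.le_succ i)
  have h2 := comm_wperm r1 (fun _ => d1C) CC CC_nonneg d1_le (fun i => (r1_disp i).1)
    (fun i => (r1_disp i).2)
  have h3 := comm_wperm r2 XX CC CC_nonneg XX_le (fun i => (r2_disp i).1)
    (fun i => (r2_disp i).2)
  have h := (h1.add h2).add h3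
  have e : pp * ht - ht * pp = (pp * wperm 1 (fun i => fc (DD i)) CC CC_nonneg DD_le
      - wperm 1 (fun i => fc (DD i)) CC CC_nonneg DD_le * pp)
      + (pp * wperm r1 (fun _ => fc d1C) CC CC_nonneg d1_le
        - wperm r1 (fun _ => fc d1C) CC CC_nonneg d1_le * pp)
      + (pp * wperm r2 (fun i => fc (XX i)) CC CC_nonneg XX_le
        - wperm r2 (fun i => fc (XX i)) CC CC_nonneg XX_le * pp) := by
    unfold ht
    noncomm_ring
  rw [e]
  exact h

/-! ### exact relations -/

theorem ht_zero (y : L2 ℕ Hz) : ht y 0 = fc bC (y 0) + fc d1C (y 1) := by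
  rw [ht_apply]
  have h1 : DD 0 = bC := rfl
  have h2 : XX 0 = 0 := rfl
  have h3 : r1 0 = 1 := rfl
  rw [h1, h2, h3, map_zero]
  change _ + 0 = _
  rw [add_zero]

theorem ht_odd (y : L2 ℕ Hz) (n : ℕ) : ht y (2 * n + 1) =
    fc cC (y (2 * n + 1)) + fc d1C (y (2 * n)) + fc d2C (y (2 * n + 2)) := by
  rw [ht_apply]
  have h1 : DD (2 * n + 1) = cC := by
    unfold DD; rw [if_neg (by omega), if_pos (by omega)]
  have h2 : XX (2 * n + 1) = d2C := by unfold XX; rw [if_neg (by omega)]
  have h3 : r1 (2 * n + 1) = 2 * n := by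
    rw [r1_apply]; unfold s1; rw [if_neg (by omega)]; omega
  have h4 : r2 (2 * n + 1) = 2 * n + 2 := by
    rw [r2_apply]; unfold s2; rw [if_neg (by omega), if_pos (by omega)]
  rw [h1, h2, h3, h4]

theorem ht_even (y : L2 ℕ Hz) (n : ℕ) : ht y (2 * n + 2) =
    fc aC (y (2 * n + 2)) + fc d1C (y (2 * n + 3)) + fc d2C (y (2 * n + 1)) := by
  rw [ht_apply]
  have h1 : DD (2 * n + 2) = aC := by
    unfold DD; rw [if_neg (by omega), if_neg (by omega)]
  have h2 : XX (2 * n + 2) = d2C := by unfold XX; rw [if_neg (by omega)]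
  have h3 : r1 (2 * n + 2) = 2 * n + 3 := by
    rw [r1_apply]; unfold s1; rw [if_pos (by omega)]
  have h4 : r2 (2 * n + 2) = 2 * n + 1 := by
    rw [r2_apply]; unfold s2; rw [if_neg (by omega), if_neg (by omega)]; omega
  rw [h1, h2, h3, h4]

/-- `ℓ²(ℤ)` as a `C(Circle, ℂ)`-module -/
@[reducible] noncomputable def modC : Module C(Circle, ℂ) Hz :=
  Module.compHom Hz (fc : C(Circle, ℂ) →+* (Hz →L[ℂ] Hz))

attribute [local instance] modC

theorem fc_smul (g : C(Circle, ℂ)) (y : Hz) : fc g y = g • y := rfl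

theorem rel_main : ht * ht - ht = amp ℕ (fc kC) * mask {0} := by
  have e1 := C_d1d2
  have e2 := C_ab
  have e3 := C_c
  have e4 := C_a
  have e5 := C_ac
  have e6 := C_k
  refine op_ext fun y i => ?_
  change (ht (ht y) - ht y) i = fc kC (mask {0} y i)
  rw [lp.coeFn_sub, Pi.sub_apply]
  rcases Nat.eq_zero_or_pos i with rfl | hi
  · rw [mask_of_mem _ (show (0 : ℕ) ∈ ({0} : Set ℕ) from rfl)]
    rw [ht_zero (ht y), ht_zero y]
    have h1 := ht_odd y 0
    simp only [mul_zero, zero_add] at h1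
    rw [h1]
    simp only [fc_smul]
    linear_combination (norm := module) e6 • y 0 + (e5 * d1C - e2) • y 1 + e1 • y 2
  · rw [mask_of_notMem _ (show i ∉ ({0} : Set ℕ) from hi.ne'), map_zero]
    rcases Nat.even_or_odd' i with ⟨k, rfl | rfl⟩
    · obtain ⟨n, rfl⟩ : ∃ n, k = n + 1 := ⟨k - 1, by omega⟩
      have e : 2 * (n + 1) = 2 * n + 2 := by ring
      rw [e, ht_even (ht y), ht_even y, ht_odd y]
      have h1 := ht_odd y (n + 1)
      have e' : 2 * (n + 1) + 1 = 2 * n + 3 := by ring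
      rw [e', e] at h1
      rw [h1]
      simp only [fc_smul]
      linear_combination (norm := module) e4 • y (2 * n + 2) + (e5 * d1C) • y (2 * n + 3)
        + (e5 * d2C) • y (2 * n + 1) + e1 • y (2 * n + 2 + 2) + e1 • y (2 * n)
    · rcases Nat.eq_zero_or_pos k with rfl | hk
      · simp only [mul_zero, zero_add]
        have h1 := ht_odd (ht y) 0
        have h2 := ht_odd y 0
        have h3 := ht_even y 0
        simp only [mul_zero, zero_add] at h1 h2 h3
        rw [h1, h2, h3, ht_zero]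
        simp only [fc_smul]
        linear_combination (norm := module) e3 • y 1 + (e5 * d1C - e2) • y 0
          + (e5 * d2C) • y 2 + e1 • y 3
      · obtain ⟨n, rfl⟩ : ∃ n, k = n + 1 := ⟨k - 1, by omega⟩
        rw [ht_odd (ht y), ht_odd y, ht_even y]
        have e : 2 * (n + 1) = 2 * n + 2 := by ring
        rw [e, ht_even y]
        simp only [fc_smul]
        linear_combination (norm := module) e3 • y (2 * n + 3) + (e5 * d1C) • y (2 * n + 2)
          + (e5 * d2C) • y (2 * n + 4) + e1 • y (2 * n + 5) + e1 • y (2 * n + 1)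

theorem rel_k : amp ℕ (fc kC) * mask {0} * ht = amp ℕ (fc (kC * bC)) * mask {0} := by
  refine op_ext fun y i => ?_
  change fc kC (mask {0} (ht y) i) = fc (kC * bC) (mask {0} y i)
  by_cases h : i = 0
  · subst h
    rw [mask_of_mem _ (show (0 : ℕ) ∈ ({0} : Set ℕ) from rfl),
      mask_of_mem _ (show (0 : ℕ) ∈ ({0} : Set ℕ) from rfl), ht_zero]
    simp only [fc_smul]
    have e := C_kd1
    linear_combination (norm := module) e • y 1
  · rw [mask_of_notMem _ (show i ∉ ({0} : Set ℕ) from h),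
      mask_of_notMem _ (show i ∉ ({0} : Set ℕ) from h), map_zero, map_zero]

end Pool.Agent.H744R2.RR
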