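import Mathlib
import Pool.Agent.H744R2.RR.Elem

set_option autoImplicit false
set_option linter.unusedSectionVars false

/-!
The polynomial `Φ`.
-/

namespace Pool.Agent.H744R2.RR

open scoped ENNReal InnerProductSpace Topology
open Filter

section General

variable {E : Type} [NormedAddCommGroup E] [InnerProductSpace ℂ E] [CompleteSpace E]

/-- `Φ(x) = 1 + 8 (x² - x)(1 + i(2x - 1))` -/
noncomputable def Phi (x : L2 ℕ E →L[ℂ] L2 ℕ E) : L2 ℕ E →L[ℂ] L2 ℕ E :=
  1 + (8 : ℂ) • ((x * x - x) * (1 + Complex.I • ((2 : ℂ) • x - 1)))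

theorem Phi_cont : Continuous (Phi : (L2 ℕ E →L[ℂ] L2 ℕ E) → (L2 ℕ E →L[ℂ] L2 ℕ E)) := by
  unfold Phi
  fun_prop

theorem Eq0.Phi {x y : L2 ℕ E →L[ℂ] L2 ℕ E} (h : Eq0 x y) : Eq0 (Phi x) (Phi y) := by
  have h1 : Eq0 (1 : L2 ℕ E →L[ℂ] L2 ℕ E) 1 := Eq0.refl Mp.one
  exact h1.add ((((h.mul h).sub h).mul (h1.add (((h.smul 2).sub h1).smul Complex.I))).smul 8)

theorem Mp.Phi {x : L2 ℕ E →L[ℂ] L2 ℕ E} (h : Mp x) : Mp (Phi x) := (Eq0.refl h).Phi.1

theorem Phi_expand (x : L2 ℕ E →L[ℂ] L2 ℕ E) :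
    Phi x = 1 + (8 * (1 - Complex.I)) • (x * x - x) + (16 * Complex.I) • ((x * x - x) * x) := by
  unfold Phi
  have e : (x * x - x) * (1 + Complex.I • ((2 : ℂ) • x - 1))
      = (1 - Complex.I) • (x * x - x) + (2 * Complex.I) • ((x * x - x) * x) := by
    set w := x * x - x
    rw [mul_add, mul_one, mul_smul_comm, mul_sub, mul_one, mul_smul_comm]
    module
  rw [e]
  module

/-- scalar version -/
noncomputable def phi (z : ℂ) : ℂ := 1 + 8 * ((z * z - z) * (1 + Complex.I * (2 * z - 1)))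

theorem phi_cont : Continuous phi := by
  unfold phi; fun_prop

theorem phi_cfc (x : L2 ℕ E →L[ℂ] L2 ℕ E) (hx : IsStarNormal x) : cfc phi x = Phi x := by
  have hid : cfc (fun z : ℂ => z) x = x := cfc_id' ℂ x hx
  have h2 : cfc (fun z : ℂ => z * z) x = x * x := by
    rw [cfc_mul (fun z : ℂ => z) (fun z : ℂ => z) x continuousOn_id continuousOn_id, hid]
  have h3 : cfc (fun z : ℂ => z * z - z) x = x * x - x := by
    rw [cfc_sub (fun z : ℂ => z * z) (fun z : ℂ => z) x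
      ((continuous_id.mul continuous_id).continuousOn) continuousOn_id, h2, hid]
  have h4 : cfc (fun z : ℂ => 2 * z) x = (2 : ℂ) • x := by
    rw [cfc_const_mul (2 : ℂ) (fun z : ℂ => z) x continuousOn_id, hid]
  have h5 : cfc (fun z : ℂ => 2 * z - 1) x = (2 : ℂ) • x - 1 := by
    rw [cfc_sub (fun z : ℂ => 2 * z) (fun _ : ℂ => 1) x
      ((continuous_const.mul continuous_id).continuousOn) continuousOn_const, h4,
      cfc_const_one ℂ x hx]
  have h6 : cfc (fun z : ℂ => Complex.I * (2 * z - 1)) x = Complex.I • ((2 : ℂ) • x - 1) := by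
    rw [cfc_const_mul Complex.I (fun z : ℂ => 2 * z - 1) x
      (((continuous_const.mul continuous_id).sub continuous_const).continuousOn), h5]
  have h7 : cfc (fun z : ℂ => 1 + Complex.I * (2 * z - 1)) x
      = 1 + Complex.I • ((2 : ℂ) • x - 1) := by
    rw [cfc_add (a := x) (fun _ : ℂ => 1) (fun z : ℂ => Complex.I * (2 * z - 1)) 
      continuousOn_const
      ((continuous_const.mul ((continuous_const.mul continuous_id).sub continuous_const)).continuousOn),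
      h6, cfc_const_one ℂ x hx]
  have c7 : Continuous fun z : ℂ => 1 + Complex.I * (2 * z - 1) := by fun_prop
  have h8 : cfc (fun z : ℂ => (z * z - z) * (1 + Complex.I * (2 * z - 1))) x
      = (x * x - x) * (1 + Complex.I • ((2 : ℂ) • x - 1)) := by
    rw [cfc_mul (fun z : ℂ => z * z - z) (fun z : ℂ => 1 + Complex.I * (2 * z - 1)) x
      (((continuous_id.mul continuous_id).sub continuous_id).continuousOn) c7.continuousOn, h3, h7]
  have c8 : Continuous fun z : ℂ => (z * z - z) * (1 + Complex.I * (2 * z - 1)) := by fun_prop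
  have h9 : cfc (fun z : ℂ => 8 * ((z * z - z) * (1 + Complex.I * (2 * z - 1)))) x
      = (8 : ℂ) • ((x * x - x) * (1 + Complex.I • ((2 : ℂ) • x - 1))) := by
    rw [cfc_const_mul (8 : ℂ) (fun z : ℂ => (z * z - z) * (1 + Complex.I * (2 * z - 1))) x
      c8.continuousOn, h8]
  have c9 : Continuous fun z : ℂ => 8 * ((z * z - z) * (1 + Complex.I * (2 * z - 1))) := by
    fun_prop
  have h10 : cfc (fun z : ℂ => 1 + 8 * ((z * z - z) * (1 + Complex.I * (2 * z - 1)))) x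
      = 1 + (8 : ℂ) • ((x * x - x) * (1 + Complex.I • ((2 : ℂ) • x - 1))) := by
    rw [cfc_add (a := x) (fun _ : ℂ => 1)
      (fun z : ℂ => 8 * ((z * z - z) * (1 + Complex.I * (2 * z - 1))))
      continuousOn_const c9.continuousOn, h9, cfc_const_one ℂ x hx]
  exact h10

theorem phi_real_norm (t : ℝ) : 5 / 8 ≤ ‖phi (t : ℂ)‖ := by
  have h1 : ‖phi (t : ℂ)‖ ^ 2 = 1 - 4 * (2 * t - 1) ^ 4 + 4 * (2 * t - 1) ^ 6 := by
    rw [← Complex.normSq_eq_norm_sq]
    have h2 : phi (t : ℂ) = ⟨1 + 8 * (t * t - t), 8 * (t * t - t) * (2 * t - 1)⟩ := by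
      unfold phi
      apply Complex.ext
      · simp
      · simp; ring
    rw [h2, Complex.normSq_mk]
    ring
  have h3 : (5 / 8 : ℝ) ^ 2 ≤ ‖phi (t : ℂ)‖ ^ 2 := by
    rw [h1]
    set s := (2 * t - 1) with hs
    have h4 : 1 - 4 * s ^ 4 + 4 * s ^ 6 = 11 / 27 + 4 * (s ^ 2 - 2 / 3) ^ 2 * (s ^ 2 + 1 / 3) := by
      ring
    rw [h4]
    have : 0 ≤ 4 * (s ^ 2 - 2 / 3) ^ 2 * (s ^ 2 + 1 / 3) := by positivity
    linarith
  exact (sq_le_sq₀ (by norm_num) (norm_nonneg _)).1 h3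

theorem Phi_unit (x : L2 ℕ E →L[ℂ] L2 ℕ E) (hx : IsSelfAdjoint x) :
    ∃ V : (L2 ℕ E →L[ℂ] L2 ℕ E)ˣ, (V : L2 ℕ E →L[ℂ] L2 ℕ E) = Phi x ∧
      ‖((V⁻¹ : (L2 ℕ E →L[ℂ] L2 ℕ E)ˣ) : L2 ℕ E →L[ℂ] L2 ℕ E)‖ ≤ 8 / 5 := by
  have hn : IsStarNormal x := hx.isStarNormal
  have hreal : ∀ z ∈ spectrum ℂ x, 5 / 8 ≤ ‖phi z‖ := by
    intro z hz
    have := hx.mem_spectrum_eq_re hz
    rw [this]
    exact phi_real_norm _
  have hne : ∀ z ∈ spectrum ℂ x, phi z ≠ 0 := by
    intro z hz h0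
    have := hreal z hz
    rw [h0, norm_zero] at this
    norm_num at this
  have hc : ContinuousOn (fun z => (phi z)⁻¹) (spectrum ℂ x) :=
    phi_cont.continuousOn.inv₀ hne
  have h1 : cfc (fun z => (phi z)⁻¹) x * cfc phi x = 1 := by
    rw [← cfc_mul (fun z => (phi z)⁻¹) phi x hc phi_cont.continuousOn]
    rw [← cfc_const_one ℂ x hn]
    exact cfc_congr fun z hz => inv_mul_cancel₀ (hne z hz)
  have h2 : cfc phi x * cfc (fun z => (phi z)⁻¹) x = 1 := by
    rw [← cfc_mul phi (fun z => (phi z)⁻¹) x phi_cont.continuousOn hc]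
    rw [← cfc_const_one ℂ x hn]
    exact cfc_congr fun z hz => mul_inv_cancel₀ (hne z hz)
  refine ⟨⟨cfc phi x, cfc (fun z => (phi z)⁻¹) x, h2, h1⟩, phi_cfc x hn, ?_⟩
  change ‖cfc (fun z => (phi z)⁻¹) x‖ ≤ 8 / 5
  refine norm_cfc_le (by norm_num) fun z hz => ?_
  rw [norm_inv]
  have := hreal z hz
  rw [inv_le_comm₀ (by linarith) (by norm_num)]
  linarith

end General

/-! ### the value of `Φ(h)` modulo `J₀` -/

/-- `h = p h̃ p` -/
noncomputable def hh : L2 ℕ Hz →L[ℂ] L2 ℕ Hz := pp * ht * pp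

theorem hh_star : star hh = hh := by
  unfold hh
  rw [star_mul, star_mul, pp_star, ht_star, mul_assoc]

theorem Mp_hh : Mp hh := (Mp_pp.mul Mp_ht).mul Mp_pp

/-- `G ⊕ 1` -/
noncomputable def GG : L2 ℕ Hz →L[ℂ] L2 ℕ Hz := 1 + amp ℕ (P * fc (fC - 1) * P) * mask {0}

theorem fC_sub_one : fC - 1 = (8 * (1 - Complex.I)) • kC + (16 * Complex.I) • (kC * bC) := by
  unfold fC
  ext z
  change 1 + 8 * (kC z * (1 + Complex.I * (2 * bC z - 1))) - 1
    = 8 * (1 - Complex.I) * kC z + 16 * Complex.I * (kC z * bC z)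
  ring

theorem Phi_hh : Eq0 (Phi hh) GG := by
  have e0 : Eq0 (pp * ht) (ht * pp) := ⟨Mp_pp.mul Mp_ht, Mp_ht.mul Mp_pp, comm_pp_ht⟩
  have ep : Eq0 pp pp := Eq0.refl Mp_pp
  have eh : Eq0 ht ht := Eq0.refl Mp_ht
  set Xk := amp ℕ (fc kC) * mask {0} with hX
  have MX : Mp (Xk : L2 ℕ Hz →L[ℂ] L2 ℕ Hz) := (Mp_amp _).mul (Mp_mask _)
  have eX : Eq0 Xk Xk := Eq0.refl MX
  -- h² ≡ p h̃² p
  have h1 : Eq0 (hh * hh) (pp * (ht * ht) * pp) := by
    have a1 : hh * hh = pp * ht * (pp * ht) * pp := by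
      have : hh * hh = pp * ht * (pp * pp) * ht * pp := by unfold hh; noncomm_ring
      rw [this, pp_mul]; noncomm_ring
    have a2 : pp * (ht * ht) * pp = pp * ht * (ht * pp) * pp := by
      have : pp * ht * (ht * pp) * pp = pp * (ht * ht) * (pp * pp) := by noncomm_ring
      rw [this, pp_mul]
    rw [a1, a2]
    exact ((ep.mul eh).mul e0).mul ep
  have h2 : Eq0 (hh * hh - hh) (pp * Xk * pp) := by
    have a1 : pp * Xk * pp = pp * (ht * ht) * pp - hh := by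
      rw [hX, ← rel_main]; unfold hh; noncomm_ring
    rw [a1]
    exact h1.sub (Eq0.refl Mp_hh)
  have h3 : Eq0 ((hh * hh - hh) * hh) (pp * (Xk * ht) * pp) := by
    have a1 : Eq0 ((hh * hh - hh) * hh) (pp * Xk * pp * hh) := h2.mul (Eq0.refl Mp_hh)
    have a2 : pp * Xk * pp * hh = pp * Xk * (pp * ht) * pp := by
      have : pp * Xk * pp * hh = pp * Xk * (pp * pp) * ht * pp := by unfold hh; noncomm_ring
      rw [this, pp_mul]; noncomm_ring
    have a3 : pp * (Xk * ht) * pp = pp * Xk * (ht * pp) * pp := by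
      have : pp * Xk * (ht * pp) * pp = pp * (Xk * ht) * (pp * pp) := by noncomm_ring
      rw [this, pp_mul]
    rw [a2] at a1
    rw [a3]
    exact a1.trans (((ep.mul eX).mul e0).mul ep)
  have h4 : Eq0 (Phi hh) (1 + (8 * (1 - Complex.I)) • (pp * Xk * pp)
      + (16 * Complex.I) • (pp * (Xk * ht) * pp)) := by
    rw [Phi_expand]
    exact ((Eq0.refl Mp.one).add (h2.smul _)).add (h3.smul _)
  have h5 : 1 + (8 * (1 - Complex.I)) • (pp * Xk * pp)
      + (16 * Complex.I) • (pp * (Xk * ht) * pp) = GG := by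
    have b1 : Xk * ht = amp ℕ (fc (kC * bC)) * mask {0} := by rw [hX]; exact rel_k
    rw [b1, hX]
    have b2 : ∀ x : Hz →L[ℂ] Hz, pp * (amp ℕ x * mask {0}) * pp
        = amp ℕ (P * x * P) * (mask {0} : L2 ℕ Hz →L[ℂ] L2 ℕ Hz) := by
      intro x
      unfold pp
      rw [amp_mul, amp_mul, mul_assoc, mul_assoc (amp ℕ x), ← amp_mask_comm]
      noncomm_ring
    rw [b2, b2]
    unfold GG
    rw [fC_sub_one, map_add, map_smul, map_smul]
    have b3 : P * ((8 * (1 - Complex.I)) • fc kC + (16 * Complex.I) • fc (kC * bC)) * P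
        = (8 * (1 - Complex.I)) • (P * fc kC * P) + (16 * Complex.I) • (P * fc (kC * bC) * P) := by
      rw [mul_add, add_mul, mul_smul_comm, smul_mul_assoc, mul_smul_comm, smul_mul_assoc]
    rw [b3, amp_add, amp_smul, amp_smul, add_mul, smul_mul_assoc, smul_mul_assoc, add_assoc]
  rw [h5] at h4
  exact h4

end Pool.Agent.H744R2.RR
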