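import Mathlib
import Pool.Agent.H744R2.RR.Phi

set_option autoImplicit false
set_option linter.unusedSectionVars false

/-!
The contradiction.
-/

namespace Pool.Agent.H744R2.RR

open scoped ENNReal InnerProductSpace Topology
open Filter

/-- the operator `Tp (-z) ⊕ 1` -/
noncomputable def UU : L2 ℕ Hz →L[ℂ] L2 ℕ Hz := amp ℕ (Tp (-zc)) * mask {0} + mask {0}ᶜ

theorem UU_zero (y : L2 ℕ Hz) : UU y 0 = Tp (-zc) (y 0) := by
  change (amp ℕ (Tp (-zc)) (mask {0} y) + mask {0}ᶜ y) 0 = _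
  rw [lp.coeFn_add, Pi.add_apply, amp_apply, mask_of_mem _ (show (0 : ℕ) ∈ ({0} : Set ℕ) from rfl),
    mask_of_notMem _ (show (0 : ℕ) ∉ ({0}ᶜ : Set ℕ) from fun h => h rfl), add_zero]

theorem UU_ne (y : L2 ℕ Hz) {i : ℕ} (hi : i ≠ 0) : UU y i = y i := by
  change (amp ℕ (Tp (-zc)) (mask {0} y) + mask {0}ᶜ y) i = _
  rw [lp.coeFn_add, Pi.add_apply, amp_apply,
    mask_of_notMem _ (show i ∉ ({0} : Set ℕ) from hi),
    mask_of_mem _ (show i ∈ ({0}ᶜ : Set ℕ) from hi), map_zero, zero_add]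

theorem UU_injective : Function.Injective UU := by
  intro y z hyz
  refine L2_ext fun i => ?_
  by_cases h : i = 0
  · subst h
    apply Tp_neg_z_injective
    rw [← UU_zero, ← UU_zero, hyz]
  · rw [← UU_ne y h, ← UU_ne z h, hyz]

theorem UU_not_surjective : ¬ Function.Surjective UU := by
  intro h
  set e : Hz := lp.single (E := fun _ : ℤ => ℂ) 2 0 1 with he
  obtain ⟨y, hy⟩ := h (lp.single (E := fun _ : ℕ => Hz) 2 0 e)
  have h1 := UU_zero y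
  rw [hy, lp.single_apply_self] at h1
  have h2 := Tp_neg_z_apply_zero (y 0)
  rw [← h1, he, lp.single_apply_self] at h2
  exact one_ne_zero h2

theorem diag_mul (x y : Hz →L[ℂ] Hz) :
    (amp ℕ x * mask {0} + mask {0}ᶜ : L2 ℕ Hz →L[ℂ] L2 ℕ Hz) * (amp ℕ y * mask {0} + mask {0}ᶜ)
      = amp ℕ (x * y) * mask {0} + mask {0}ᶜ := by
  have h1 : (mask {0} : L2 ℕ Hz →L[ℂ] L2 ℕ Hz) * mask {0}ᶜ = 0 := by
    rw [mask_mul, Set.inter_compl_self, mask_empty]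
  have h2 : (mask {0}ᶜ : L2 ℕ Hz →L[ℂ] L2 ℕ Hz) * mask {0} = 0 := by
    rw [mask_mul, Set.compl_inter_self, mask_empty]
  have h3 : (mask {0} : L2 ℕ Hz →L[ℂ] L2 ℕ Hz) * mask {0} = mask {0} := by
    rw [mask_mul, Set.inter_self]
  have h4 : (mask {0}ᶜ : L2 ℕ Hz →L[ℂ] L2 ℕ Hz) * mask {0}ᶜ = mask {0}ᶜ := by
    rw [mask_mul, Set.inter_self]
  rw [amp_mul]
  calc (amp ℕ x * mask {0} + mask {0}ᶜ : L2 ℕ Hz →L[ℂ] L2 ℕ Hz) * (amp ℕ y * mask {0} + mask {0}ᶜ)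
      = amp ℕ x * (mask {0} * amp ℕ y) * mask {0} + amp ℕ x * (mask {0} * mask {0}ᶜ)
        + (mask {0}ᶜ * amp ℕ y) * mask {0} + mask {0}ᶜ * mask {0}ᶜ := by noncomm_ring
    _ = amp ℕ x * (amp ℕ y * mask {0}) * mask {0} + amp ℕ x * (mask {0} * mask {0}ᶜ)
        + (amp ℕ y * mask {0}ᶜ) * mask {0} + mask {0}ᶜ * mask {0}ᶜ := by
          rw [← amp_mask_comm, ← amp_mask_comm]
    _ = amp ℕ x * amp ℕ y * (mask {0} * mask {0}) + amp ℕ x * (mask {0} * mask {0}ᶜ)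
        + amp ℕ y * (mask {0}ᶜ * mask {0}) + mask {0}ᶜ * mask {0}ᶜ := by noncomm_ring
    _ = _ := by rw [h1, h2, h3, h4, mul_zero, mul_zero, add_zero, add_zero]

theorem diag_one : (amp ℕ (1 : Hz →L[ℂ] Hz) * mask {0} + mask {0}ᶜ : L2 ℕ Hz →L[ℂ] L2 ℕ Hz) = 1 := by
  rw [amp_one, one_mul, ← mask_compl]; abel

/-- `A ⊕ 1` as a unit -/
noncomputable def diagUnit (A : (Hz →L[ℂ] Hz)ˣ) : (L2 ℕ Hz →L[ℂ] L2 ℕ Hz)ˣ where
  val := amp ℕ (A : Hz →L[ℂ] Hz) * mask {0} + mask {0}ᶜ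
  inv := amp ℕ ((A⁻¹ : (Hz →L[ℂ] Hz)ˣ) : Hz →L[ℂ] Hz) * mask {0} + mask {0}ᶜ
  val_inv := by rw [diag_mul, Units.mul_inv, diag_one]
  inv_val := by rw [diag_mul, Units.inv_mul, diag_one]

theorem GG_eq : GG = amp ℕ (Tp fC) * mask {0} + mask {0}ᶜ := by
  unfold GG Tp
  rw [amp_add, amp_one, add_mul, one_mul, ← mask_compl]; abel

theorem Phi_hh_fact : ∃ A : (L2 ℕ Hz →L[ℂ] L2 ℕ Hz)ˣ,
    Eq0 (UU * (A : L2 ℕ Hz →L[ℂ] L2 ℕ Hz)) (Phi hh) ∧
      ∃ R : L2 ℕ Hz →L[ℂ] L2 ℕ Hz, UU * (A : L2 ℕ Hz →L[ℂ] L2 ℕ Hz) = 1 + R * mask {0} ∧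
        R * mask {0} = mask {0} * R * mask {0} := by
  obtain ⟨A, hA⟩ := Tp_fC
  refine ⟨diagUnit A, ?_, ?_⟩
  · refine Eq0.trans ?_ Phi_hh.symm
    have h1 : UU * (diagUnit A : L2 ℕ Hz →L[ℂ] L2 ℕ Hz)
        = amp ℕ (Tp (-zc) * (A : Hz →L[ℂ] Hz)) * mask {0} + mask {0}ᶜ := diag_mul _ _
    refine ⟨?_, ?_, ?_⟩
    · rw [h1]; exact ((Mp_amp _).mul (Mp_mask _)).add (Mp_mask _)
    · rw [GG_eq]; exact ((Mp_amp _).mul (Mp_mask _)).add (Mp_mask _)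
    · rw [h1, GG_eq]
      have e : amp ℕ (Tp (-zc) * (A : Hz →L[ℂ] Hz)) * mask {0} + mask {0}ᶜ
          - (amp ℕ (Tp fC) * mask {0} + mask {0}ᶜ)
          = -(amp ℕ (Tp fC - Tp (-zc) * (A : Hz →L[ℂ] Hz)) * mask {0} :
            L2 ℕ Hz →L[ℂ] L2 ℕ Hz) := by
        rw [amp_sub]; noncomm_ring
      rw [e]
      exact ((J0p_amp hA).mul_right (Mp_mask _)).neg
  · have h1 : UU * (diagUnit A : L2 ℕ Hz →L[ℂ] L2 ℕ Hz)
        = amp ℕ (Tp (-zc) * (A : Hz →L[ℂ] Hz)) * mask {0} + mask {0}ᶜ := diag_mul _ _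
    refine ⟨amp ℕ (Tp (-zc) * (A : Hz →L[ℂ] Hz) - 1), ?_, ?_⟩
    · rw [h1, amp_sub, amp_one, sub_mul, one_mul, ← mask_compl]; abel
    · rw [← amp_mask_comm, mul_assoc, mask_mul, Set.inter_self]

section Abstract

variable {E : Type} [NormedAddCommGroup E] [InnerProductSpace ℂ E] [CompleteSpace E]

theorem Phi_compress (x : L2 ℕ E →L[ℂ] L2 ℕ E) (n : ℕ) :
    RR.q E n * (Phi (RR.q E n * x * RR.q E n) - 1) * RR.q E n
      = Phi (RR.q E n * x * RR.q E n) - 1 := by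
  set Q := RR.q E n with hQ
  have hq : Q * Q = Q := q_mul_q n
  set w := Q * x * Q with hw
  have h1 : Q * w = w := by
    rw [hw]
    calc Q * (Q * x * Q) = (Q * Q) * x * Q := by noncomm_ring
      _ = _ := by rw [hq]
  have h2 : w * Q = w := by
    rw [hw, mul_assoc, hq]
  rw [Phi_expand, add_assoc, add_sub_cancel_left]
  have h3 : Q * (w * w - w) * Q = w * w - w := by
    calc Q * (w * w - w) * Q = (Q * w) * (w * Q) - (Q * w) * Q := by noncomm_ring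
      _ = _ := by rw [h1, h2]
  have h4 : Q * ((w * w - w) * w) * Q = (w * w - w) * w := by
    calc Q * ((w * w - w) * w) * Q = ((Q * w) * w - Q * w) * (w * Q) := by noncomm_ring
      _ = _ := by rw [h1, h2]
  rw [mul_add, add_mul, mul_smul_comm, smul_mul_assoc, h3, mul_smul_comm, smul_mul_assoc, h4]

/-- approximation of `k 1_F(k)` by selfadjoint elements of `J + J₀` -/
theorem exists_sa_approx {k p a : L2 ℕ E →L[ℂ] L2 ℕ E} (hk : Mp k) (hp : Mp p) (hpp : p * p = p)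
    (hp1 : ‖p‖ ≤ 1) (ha : Ip a) (hMa : Mp a) (h : ‖p - a‖ ≤ 1 / 2)
    (hsa : star (k * p) = k * p) {δ : ℝ} (hδ : 0 < δ) :
    ∃ j j₀ : L2 ℕ E →L[ℂ] L2 ℕ E, Jp j ∧ J0p j₀ ∧ star j = j ∧ star j₀ = j₀ ∧
      ‖k * p - (j + j₀)‖ < δ := by
  obtain ⟨n, hn⟩ : ∃ n : ℕ, ‖k‖ * (1 / 2) ^ n < δ := by
    obtain ⟨n, hn⟩ := exists_pow_lt_of_lt_one (show 0 < δ / (‖k‖ + 1) by positivity)
      (show (1 / 2 : ℝ) < 1 by norm_num)
    refine ⟨n, ?_⟩
    rw [lt_div_iff₀ (by positivity)] at hn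
    have : 0 < (1 / 2 : ℝ) ^ n := by positivity
    nlinarith [norm_nonneg k]
  obtain ⟨y, h1, h2, h3⟩ := idem_mem hp hpp hp1 ha hMa h n
  obtain ⟨j, j₀, h4, h5, h6⟩ := h3.mul_left hk
  refine ⟨(1 / 2 : ℂ) • (j + star j), (1 / 2 : ℂ) • (j₀ + star j₀), (h4.add h4.star).smul _,
    (h5.add h5.star).smul _, ?_, ?_, ?_⟩
  · rw [star_smul, star_add, star_star, add_comm (star j)]
    congr 1
    simp
  · rw [star_smul, star_add, star_star, add_comm (star j₀)]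
    congr 1
    simp
  · have e1 : k * p - (j + j₀) = k * y := by rw [← h6]; noncomm_ring
    have e2 : k * p - ((1 / 2 : ℂ) • (j + star j) + (1 / 2 : ℂ) • (j₀ + star j₀))
        = (1 / 2 : ℂ) • (k * y) + (1 / 2 : ℂ) • star (k * y) := by
      have e3 : star (k * y) = k * p - (star j + star j₀) := by
        rw [← e1, star_sub, hsa, star_add]
      rw [e3, ← e1]
      module
    rw [e2]
    have e4 : ‖(1 / 2 : ℂ) • (k * y)‖ = (1 / 2) * ‖k * y‖ := by rw [norm_smul]; norm_num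
    have e5 : ‖(1 / 2 : ℂ) • star (k * y)‖ = (1 / 2) * ‖k * y‖ := by
      rw [norm_smul, nstar]; norm_num
    have e6 : ‖k * y‖ ≤ ‖k‖ * (1 / 2) ^ n := by
      calc ‖k * y‖ ≤ ‖k‖ * ‖y‖ := norm_mul_le _ _
        _ ≤ _ := by gcongr
    calc ‖(1 / 2 : ℂ) • (k * y) + (1 / 2 : ℂ) • star (k * y)‖
        ≤ ‖(1 / 2 : ℂ) • (k * y)‖ + ‖(1 / 2 : ℂ) • star (k * y)‖ := norm_add_le _ _
      _ = ‖k * y‖ := by rw [e4, e5]; ring
      _ < δ := lt_of_le_of_lt e6 hn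

theorem compress_tendsto {j : L2 ℕ E →L[ℂ] L2 ℕ E} (hj : Jp j) {δ : ℝ} (hδ : 0 < δ) :
    ∃ n : ℕ, 1 ≤ n ∧ ‖RR.q E n * j * RR.q E n - j‖ < δ := by
  obtain ⟨N1, hN1⟩ := (Metric.tendsto_atTop.1 hj.1) (δ / 2) (by linarith)
  obtain ⟨N2, hN2⟩ := (Metric.tendsto_atTop.1 hj.2) (δ / 2) (by linarith)
  set n := max (max N1 N2) 1 with hn
  have h1 := hN1 n ((le_max_left _ _).trans (le_max_left _ _))
  have h2 := hN2 n ((le_max_right _ _).trans (le_max_left _ _))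
  rw [dist_zero_right] at h1 h2
  refine ⟨n, le_max_right _ _, ?_⟩
  have e : RR.q E n * j * RR.q E n - j
      = -(RR.q E n * star (rr E n * star j)) - rr E n * j := by
    rw [star_mul, star_star, rr_star, ← one_sub_q]; noncomm_ring
  rw [e]
  have h3 : ‖-(RR.q E n * star (rr E n * star j))‖ ≤ ‖rr E n * star j‖ := by
    rw [norm_neg]
    calc ‖RR.q E n * star (rr E n * star j)‖ ≤ ‖RR.q E n‖ * ‖star (rr E n * star j)‖ :=
          norm_mul_le _ _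
      _ ≤ 1 * ‖rr E n * star j‖ := by rw [nstar]; gcongr; exact q_norm _
      _ = _ := one_mul _
  calc ‖-(RR.q E n * star (rr E n * star j)) - rr E n * j‖
      ≤ ‖-(RR.q E n * star (rr E n * star j))‖ + ‖rr E n * j‖ := norm_sub_le _ _
    _ < δ := by linarith

end Abstract

theorem exists_delta : ∃ δ : ℝ, 0 < δ ∧ ∀ k : L2 ℕ Hz →L[ℂ] L2 ℕ Hz, Mp k → IsSelfAdjoint k →
    (spectrum ℂ k).Finite → ¬ ‖hh - k‖ < δ := by
  obtain ⟨δ, hδ, hcont⟩ := Metric.continuousAt_iff.1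
    ((Phi_cont (E := Hz)).continuousAt (x := hh)) (1 / 16) (by norm_num)
  refine ⟨δ, hδ, fun k hk hksa hfin hlt => ?_⟩
  have hkn : IsStarNormal k := hksa.isStarNormal
  have hPk : ‖Phi hh - Phi k‖ ≤ 1 / 16 := by
    have h1 := hcont (x := k) (by rw [dist_comm, dist_eq_norm]; exact hlt)
    rw [dist_comm, dist_eq_norm] at h1
    exact h1.le
  -- functions on the finite spectrum
  classical
  set χ : ℂ → ℂ := fun z => if 1 / 8 < ‖phi z - 1‖ then 1 else 0 with hχ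
  set γ : ℂ → ℂ := fun z => if 1 / 8 < ‖phi z - 1‖ then (phi z - 1)⁻¹ else 0 with hγ
  have hcts : ∀ f : ℂ → ℂ, ContinuousOn f (spectrum ℂ k) := fun f => hfin.continuousOn f
  set p := cfc χ k with hp
  have hMp : Mp p := hk.cfc χ
  have hpp : p * p = p := by
    rw [hp, ← cfc_mul χ χ k (hcts _) (hcts _)]
    refine cfc_congr fun z _ => ?_
    change (if 1 / 8 < ‖phi z - 1‖ then (1 : ℂ) else 0) * (if 1 / 8 < ‖phi z - 1‖ then 1 else 0)
      = if 1 / 8 < ‖phi z - 1‖ then 1 else 0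
    by_cases h : 1 / 8 < ‖phi z - 1‖
    · rw [if_pos h, one_mul]
    · rw [if_neg h, zero_mul]
  have hp1 : ‖p‖ ≤ 1 := by
    refine norm_cfc_le zero_le_one fun z _ => ?_
    change ‖(if 1 / 8 < ‖phi z - 1‖ then (1 : ℂ) else 0)‖ ≤ 1
    by_cases h : 1 / 8 < ‖phi z - 1‖
    · rw [if_pos h, norm_one]
    · rw [if_neg h, norm_zero]; exact zero_le_one
  have hPk1 : cfc (fun z => phi z - 1) k = Phi k - 1 := by
    rw [cfc_sub phi (fun _ => 1) k (hcts _) (hcts _), phi_cfc k hkn, cfc_const_one ℂ k hkn]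
  have hpg : p = cfc γ k * (Phi k - 1) := by
    rw [← hPk1, ← cfc_mul γ (fun z => phi z - 1) k (hcts _) (hcts _), hp]
    refine cfc_congr fun z _ => ?_
    change (if 1 / 8 < ‖phi z - 1‖ then (1 : ℂ) else 0)
      = (if 1 / 8 < ‖phi z - 1‖ then (phi z - 1)⁻¹ else 0) * (phi z - 1)
    by_cases h : 1 / 8 < ‖phi z - 1‖
    · rw [if_pos h, if_pos h, inv_mul_cancel₀]
      intro h0
      rw [h0, norm_zero] at h
      norm_num at h
    · rw [if_neg h, if_neg h, zero_mul]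
  have hγn : ‖cfc γ k‖ ≤ 8 := by
    refine norm_cfc_le (by norm_num) fun z _ => ?_
    change ‖(if 1 / 8 < ‖phi z - 1‖ then (phi z - 1)⁻¹ else 0)‖ ≤ 8
    by_cases h : 1 / 8 < ‖phi z - 1‖
    · rw [if_pos h, norm_inv, inv_le_comm₀ (by linarith) (by norm_num)]
      linarith
    · rw [if_neg h, norm_zero]; norm_num
  set a := cfc γ k * (Phi hh - 1) with ha
  have hMa : Mp a := (hk.cfc γ).mul (Mp_hh.Phi.sub Mp.one)
  have hIPh : Ip (Phi hh - 1) := by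
    refine ⟨amp ℕ (P * fc (fC - 1) * P) * mask {0}, Phi hh - GG, ?_, Phi_hh.2.2, ?_⟩
    · have h1 : (mask {0} : L2 ℕ Hz →L[ℂ] L2 ℕ Hz) = RR.q Hz 1 := by
        unfold RR.q
        congr 1
        ext i
        simp only [Set.mem_singleton_iff, Set.mem_ofPred_eq]
        omega
      rw [h1]
      exact (Jp.of_q 1).mul_left (Mp_amp _)
    · unfold GG; abel
  have hIa : Ip a := hIPh.mul_left (hk.cfc γ)
  have hpa : ‖p - a‖ ≤ 1 / 2 := by
    have e : p - a = cfc γ k * -(Phi hh - Phi k) := by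
      rw [ha]
      nth_rewrite 1 [hpg]
      noncomm_ring
    rw [e]
    calc ‖cfc γ k * -(Phi hh - Phi k)‖ ≤ ‖cfc γ k‖ * ‖-(Phi hh - Phi k)‖ := norm_mul_le _ _
      _ ≤ 8 * (1 / 16) := by rw [norm_neg]; gcongr
      _ = 1 / 2 := by norm_num
  -- k p = cfc (z χ(z)) k
  have hcomm : p * k = k * p := by
    have h1 : Commute (star k) k := by rw [hksa.star_eq]
    exact (Commute.cfc (Commute.refl k) h1 χ : Commute (cfc χ k) k)
  have hpsa : star p = p := by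
    rw [hp, ← cfc_star]
    refine cfc_congr fun z _ => ?_
    change star (if 1 / 8 < ‖phi z - 1‖ then (1 : ℂ) else 0) = if 1 / 8 < ‖phi z - 1‖ then 1 else 0
    by_cases h : 1 / 8 < ‖phi z - 1‖
    · rw [if_pos h, star_one]
    · rw [if_neg h, star_zero]
  have hkpsa : star (k * p) = k * p := by
    rw [star_mul, hpsa, hksa.star_eq, hcomm]
  have hPkp : Phi (k * p) = 1 + (Phi k - 1) * p := by
    have e1 : k * p * (k * p) = k * k * p := by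
      calc k * p * (k * p) = k * (p * k) * p := by noncomm_ring
        _ = k * k * (p * p) := by rw [hcomm]; noncomm_ring
        _ = k * k * p := by rw [hpp]
    have e2 : k * k * p * (k * p) = k * k * k * p := by
      calc k * k * p * (k * p) = k * k * (p * k) * p := by noncomm_ring
        _ = k * k * k * (p * p) := by rw [hcomm]; noncomm_ring
        _ = k * k * k * p := by rw [hpp]
    have e4 : (k * k - k) * p = k * k * p - k * p := sub_mul _ _ _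
    have e5 : (k * k - k) * k * p = k * k * k * p - k * k * p := by noncomm_ring
    have e6 : Phi k - 1
        = (8 * (1 - Complex.I)) • (k * k - k) + (16 * Complex.I) • ((k * k - k) * k) := by
      rw [Phi_expand]; abel
    have e7 : (k * p * (k * p) - k * p) * (k * p) = k * k * k * p - k * k * p := by
      rw [sub_mul, e1, e2]
    rw [Phi_expand, e7, e1, e6, add_mul, smul_mul_assoc, smul_mul_assoc, e4, e5, add_assoc]
  have hPkp' : ‖Phi k - Phi (k * p)‖ ≤ 1 / 8 := by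
    have e1 : Phi k - Phi (k * p) = cfc (fun z => (phi z - 1) * (1 - χ z)) k := by
      rw [cfc_mul (fun z => phi z - 1) (fun z => 1 - χ z) k (hcts _) (hcts _), hPk1,
        cfc_sub (fun _ => 1) χ k (hcts _) (hcts _), cfc_const_one ℂ k hkn, hPkp, ← hp]
      noncomm_ring
    rw [e1]
    refine norm_cfc_le (by norm_num) fun z _ => ?_
    change ‖(phi z - 1) * (1 - if 1 / 8 < ‖phi z - 1‖ then (1 : ℂ) else 0)‖ ≤ 1 / 8
    by_cases h : 1 / 8 < ‖phi z - 1‖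
    · rw [if_pos h, sub_self, mul_zero, norm_zero]; norm_num
    · rw [if_neg h, sub_zero, mul_one]; exact not_lt.1 h
  -- approximation
  obtain ⟨δ₂, hδ₂, hcont₂⟩ := Metric.continuousAt_iff.1
    ((Phi_cont (E := Hz)).continuousAt (x := k * p)) (1 / 16) (by norm_num)
  obtain ⟨j, j₀, hj, hj₀, hjs, hj₀s, hjd⟩ :=
    exists_sa_approx hk hMp hpp hp1 hIa hMa hpa hkpsa hδ₂
  have hA1 : ‖Phi (k * p) - Phi (j + j₀)‖ ≤ 1 / 16 := by
    have h1 := hcont₂ (x := j + j₀) (by rw [dist_comm, dist_eq_norm]; exact hjd)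
    rw [dist_comm, dist_eq_norm] at h1
    exact h1.le
  have hA2 : Eq0 (Phi (j + j₀)) (Phi j) := by
    refine Eq0.Phi ⟨hj.mp.add hj₀.1, hj.mp, ?_⟩
    rw [add_sub_cancel_left]; exact hj₀
  obtain ⟨δ₃, hδ₃, hcont₃⟩ := Metric.continuousAt_iff.1
    ((Phi_cont (E := Hz)).continuousAt (x := j)) (1 / 16) (by norm_num)
  obtain ⟨n, hn1, hnd⟩ := compress_tendsto hj hδ₃
  set Q := RR.q Hz n with hQ
  set w := Q * j * Q with hw
  have hA3 : ‖Phi j - Phi w‖ ≤ 1 / 16 := by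
    have h1 := hcont₃ (x := w) (by rw [dist_eq_norm]; exact hnd)
    rw [dist_comm, dist_eq_norm] at h1
    exact h1.le
  have hwsa : IsSelfAdjoint w := by
    change star w = w
    rw [hw, star_mul, star_mul, hjs, hQ, q_star, mul_assoc]
  obtain ⟨V, hV, hVn⟩ := Phi_unit w hwsa
  obtain ⟨A, hA4, R, hR1, hR2⟩ := Phi_hh_fact
  -- decomposition
  set T := UU * (A : L2 ℕ Hz →L[ℂ] L2 ℕ Hz) with hT
  set c := (T - Phi hh) + (Phi (j + j₀) - Phi j) with hc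
  set s := (Phi hh - Phi k) + (Phi k - Phi (k * p)) + (Phi (k * p) - Phi (j + j₀))
    + (Phi j - Phi w) with hs
  have hcJ : J0p c := hA4.2.2.add hA2.2.2
  have hsn : ‖s‖ ≤ 5 / 16 := by
    have h1 := norm_add_le ((Phi hh - Phi k) + (Phi k - Phi (k * p)) + (Phi (k * p) - Phi (j + j₀)))
      (Phi j - Phi w)
    have h2 := norm_add_le ((Phi hh - Phi k) + (Phi k - Phi (k * p))) (Phi (k * p) - Phi (j + j₀))
    have h3 := norm_add_le (Phi hh - Phi k) (Phi k - Phi (k * p))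
    rw [hs]
    linarith
  have hTc : T - Phi w = c + s := by rw [hc, hs]; abel
  have hQm : Q * mask {0} = (mask {0} : L2 ℕ Hz →L[ℂ] L2 ℕ Hz) := by
    rw [hQ]; unfold RR.q
    rw [mask_mul]
    congr 1
    ext i
    simp only [Set.mem_inter_iff, Set.mem_singleton_iff, Set.mem_ofPred_eq]
    omega
  have hmQ : mask {0} * Q = (mask {0} : L2 ℕ Hz →L[ℂ] L2 ℕ Hz) := by
    rw [hQ]; unfold RR.q
    rw [mask_mul]
    congr 1
    ext i
    simp only [Set.mem_inter_iff, Set.mem_singleton_iff, Set.mem_ofPred_eq]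
    omega
  have hTQ : Q * (T - 1) * Q = T - 1 := by
    rw [hR1, add_sub_cancel_left]
    calc Q * (R * mask {0}) * Q = Q * (mask {0} * R * mask {0}) * Q := by rw [← hR2]
      _ = (Q * mask {0}) * R * (mask {0} * Q) := by noncomm_ring
      _ = mask {0} * R * mask {0} := by rw [hQm, hmQ]
      _ = R * mask {0} := hR2.symm
  have hPQ : Q * (Phi w - 1) * Q = Phi w - 1 := Phi_compress j n
  have hΔ : T = Phi w + Q * s * Q + Q * c * Q := by
    have h1 : Q * (T - Phi w) * Q = T - Phi w := by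
      have : Q * (T - Phi w) * Q = Q * (T - 1) * Q - Q * (Phi w - 1) * Q := by noncomm_ring
      rw [this, hTQ, hPQ]; abel
    have h2 : T = Phi w + Q * (T - Phi w) * Q := by rw [h1]; abel
    rw [h2, hTc]; noncomm_ring
  have hQsQ : ‖Q * s * Q‖ ≤ 5 / 16 := by
    calc ‖Q * s * Q‖ ≤ ‖Q * s‖ * ‖Q‖ := norm_mul_le _ _
      _ ≤ (‖Q‖ * ‖s‖) * ‖Q‖ := by gcongr; exact norm_mul_le _ _
      _ ≤ (1 * (5 / 16)) * 1 := by gcongr; exacts [q_norm _, q_norm _]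
      _ = 5 / 16 := by norm_num
  have hVs : ‖-(((V⁻¹ : (L2 ℕ Hz →L[ℂ] L2 ℕ Hz)ˣ) : L2 ℕ Hz →L[ℂ] L2 ℕ Hz) * (Q * s * Q))‖ < 1 := by
    rw [norm_neg]
    calc ‖((V⁻¹ : (L2 ℕ Hz →L[ℂ] L2 ℕ Hz)ˣ) : L2 ℕ Hz →L[ℂ] L2 ℕ Hz) * (Q * s * Q)‖
        ≤ ‖((V⁻¹ : (L2 ℕ Hz →L[ℂ] L2 ℕ Hz)ˣ) : L2 ℕ Hz →L[ℂ] L2 ℕ Hz)‖ * ‖Q * s * Q‖ :=
          norm_mul_le _ _
      _ ≤ (8 / 5) * (5 / 16) := by gcongr
      _ < 1 := by norm_num
  obtain ⟨W₀, hW₀⟩ := isUnit_one_sub_of_norm_lt_one hVs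
  have hK : IsCompactOperator (Q * c * Q : L2 ℕ Hz →L[ℂ] L2 ℕ Hz) := by
    have := ((hcJ.2 n).1.mul_left Q).1
    rwa [← mul_assoc] at this
  have hfin2 : UU = ((V * W₀ * A⁻¹ : (L2 ℕ Hz →L[ℂ] L2 ℕ Hz)ˣ) : L2 ℕ Hz →L[ℂ] L2 ℕ Hz)
      + (Q * c * Q) * ((A⁻¹ : (L2 ℕ Hz →L[ℂ] L2 ℕ Hz)ˣ) : L2 ℕ Hz →L[ℂ] L2 ℕ Hz) := by
    have h1 : UU = T * ((A⁻¹ : (L2 ℕ Hz →L[ℂ] L2 ℕ Hz)ˣ) : L2 ℕ Hz →L[ℂ] L2 ℕ Hz) := by
      rw [hT, mul_assoc, Units.mul_inv, mul_one]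
    have h2 : (V : L2 ℕ Hz →L[ℂ] L2 ℕ Hz) * (W₀ : L2 ℕ Hz →L[ℂ] L2 ℕ Hz)
        = Phi w + Q * s * Q := by
      rw [hW₀, sub_neg_eq_add, mul_add, mul_one, ← mul_assoc, Units.mul_inv, one_mul, hV]
    rw [Units.val_mul, Units.val_mul, h2, ← add_mul, ← hΔ]
    exact h1
  have hKA : IsCompactOperator ((Q * c * Q) *
      ((A⁻¹ : (L2 ℕ Hz →L[ℂ] L2 ℕ Hz)ˣ) : L2 ℕ Hz →L[ℂ] L2 ℕ Hz) : L2 ℕ Hz →L[ℂ] L2 ℕ Hz) :=
    hK.comp_clm _
  exact UU_not_surjective (surjective_of_injective hKA hfin2 UU_injective)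

end Pool.Agent.H744R2.RR
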